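import Pool.Agent.Lib.MP_9569f1_co.Mixed

set_option autoImplicit false

namespace Pool.Agent.Lib.MP_9569f1_co

open Module QuadraticAlgebra

section Abstract

variable {K : Type*} {V : Type*} [Field K] [Fintype K] [AddCommGroup V] [Module K V]

/-- A packing, in partition form. -/
structure IsPack (P0 : Set (Set (Submodule K V))) : Prop where
  part : ∀ S ∈ P0, IsPart S
  disj : ∀ S ∈ P0, ∀ T ∈ P0, S ≠ T → Disjoint S T
  cover : ∀ l : Submodule K V, finrank K l = 2 → ∃ S ∈ P0, l ∈ S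
  ncard : P0.ncard = Fintype.card K ^ 2 + Fintype.card K + 1

open Classical in
/-- the line of a spread through a point -/
noncomputable def thru (p : V) (S : Set (Submodule K V)) : Submodule K V :=
  if h : ∃ l ∈ S, p ∈ l then h.choose else ⊥

lemma thru_mem {p : V} (hp : p ≠ 0) {S : Set (Submodule K V)} (hS : IsPart S) :
    thru p S ∈ S ∧ p ∈ thru p S := by
  have h := hS.cover p hp
  rw [thru, dif_pos h]
  exact h.choose_spec

lemma thru_eq {p : V} (hp : p ≠ 0) {S : Set (Submodule K V)} (hS : IsPart S)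
    {l : Submodule K V} (hl : l ∈ S) (hpl : p ∈ l) : thru p S = l :=
  hS.uniq p hp _ (thru_mem hp hS).1 _ hl (thru_mem hp hS).2 hpl

lemma thru_injOn {p : V} (hp : p ≠ 0) {P : Set (Set (Submodule K V))}
    (hpart : ∀ S ∈ P, IsPart S) (hdisj : ∀ S ∈ P, ∀ T ∈ P, S ≠ T → Disjoint S T) :
    Set.InjOn (thru (K := K) p) P := by
  intro S hS T hT h
  by_contra hne
  have h1 := (thru_mem hp (hpart S hS)).1
  have h2 := (thru_mem hp (hpart T hT)).1
  rw [← h] at h2
  exact Set.disjoint_left.mp (hdisj S hS T hT hne) h1 h2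

lemma no_deficiency_one [FiniteDimensional K V] (hV : finrank K V = 4)
    {P0 : Set (Set (Submodule K V))} (h0 : IsPack P0) (P : Set (Set (Submodule K V))) :
    ¬ IsCompletePartialPacking K V P 1 := by
  intro hP
  have : Finite V := Module.finite_of_finite K
  have hfin : Finite (Submodule K V) := inferInstance
  have hpart : ∀ S ∈ P, IsPart S := fun S hS => (hP.spread S hS).isPart hV
  set M : Set (Submodule K V) := {l | finrank K l = 2 ∧ ∀ S ∈ P, l ∉ S} with hM
  have key : ∀ p : V, p ≠ 0 → ∃ a : Submodule K V, {l | l ∈ M ∧ p ∈ l} = {a} := by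
    intro p hp
    set L : Set (Submodule K V) := {l | finrank K l = 2 ∧ p ∈ l} with hL
    have e0 : thru p '' P0 = L := by
      ext l
      constructor
      · rintro ⟨S, hS, rfl⟩
        have h1 := thru_mem hp (h0.part S hS)
        exact ⟨(h0.part S hS).line _ h1.1, h1.2⟩
      · rintro ⟨h1, h2⟩
        obtain ⟨S, hS, hlS⟩ := h0.cover l h1
        exact ⟨S, hS, thru_eq hp (h0.part S hS) hlS h2⟩
    have c0 : L.ncard = Fintype.card K ^ 2 + Fintype.card K + 1 := by
      rw [← e0, Set.ncard_image_of_injOn (thru_injOn hp h0.part h0.disj), h0.ncard]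
    have e1 : thru p '' P ⊆ L := by
      rintro l ⟨S, hS, rfl⟩
      have h1 := thru_mem hp (hpart S hS)
      exact ⟨(hpart S hS).line _ h1.1, h1.2⟩
    have c1 : (thru p '' P).ncard = Fintype.card K ^ 2 + Fintype.card K := by
      rw [Set.ncard_image_of_injOn (thru_injOn hp hpart hP.disj)]
      have := hP.ncard
      omega
    have c2 : (L \ (thru p '' P)).ncard = 1 := by
      rw [Set.ncard_diff e1 (Set.toFinite _), c0, c1]
      omega
    obtain ⟨a, ha⟩ := Set.ncard_eq_one.mp c2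
    refine ⟨a, ?_⟩
    rw [← ha]
    ext l
    constructor
    · rintro ⟨⟨h1, h2⟩, h3⟩
      refine ⟨⟨h1, h3⟩, ?_⟩
      rintro ⟨S, hS, rfl⟩
      exact h2 S hS (thru_mem hp (hpart S hS)).1
    · rintro ⟨⟨h1, h3⟩, h2⟩
      refine ⟨⟨h1, ?_⟩, h3⟩
      intro S hS hlS
      exact h2 ⟨S, hS, thru_eq hp (hpart S hS) hlS h3⟩
  have hMpart : IsPart M := by
    refine ⟨fun l hl => hl.1, ?_, ?_⟩
    · intro p hp
      obtain ⟨a, ha⟩ := key p hp
      have : a ∈ {l | l ∈ M ∧ p ∈ l} := by rw [ha]; rfl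
      exact ⟨a, this.1, this.2⟩
    · intro p hp l hl m hm h1 h2
      obtain ⟨a, ha⟩ := key p hp
      have e1 : l ∈ {l | l ∈ M ∧ p ∈ l} := ⟨hl, h1⟩
      have e2 : m ∈ {l | l ∈ M ∧ p ∈ l} := ⟨hm, h2⟩
      rw [ha] at e1 e2
      rw [Set.mem_singleton_iff] at e1 e2
      rw [e1, e2]
  obtain ⟨S, hS, hnd⟩ := hP.complete M (hMpart.isSpread hV)
  apply hnd
  rw [Set.disjoint_left]
  intro l hl hlM
  exact hlM.2 S hS hl

/-- If three spreads have a fourth spread in their union, then two lines of the remaining set of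
lines which meet are separated by each spread contained in the remaining set. -/
lemma flip {S1 S2 S3 U T : Set (Submodule K V)} (h1 : IsPart S1) (h2 : IsPart S2)
    (h3 : IsPart S3) (hU : IsPart U) (hUs : U ⊆ S1 ∪ (S2 ∪ S3)) (hT : IsPart T)
    (hTs : T ⊆ (S1 ∪ (S2 ∪ S3)) \ U) {l m : Submodule K V}
    (hl : l ∈ (S1 ∪ (S2 ∪ S3)) \ U) (hm : m ∈ (S1 ∪ (S2 ∪ S3)) \ U) (hne : l ≠ m)
    {p : V} (hp : p ≠ 0) (hpl : p ∈ l) (hpm : p ∈ m) : l ∈ T ↔ m ∉ T := by
  constructor
  · intro h h'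
    exact hne (hT.uniq p hp l h m h' hpl hpm)
  · intro h
    obtain ⟨t, ht, hpt⟩ := hT.cover p hp
    obtain ⟨u, hu, hpu⟩ := hU.cover p hp
    by_cases htl : t = l
    · rw [← htl]; exact ht
    exfalso
    have htm : t ≠ m := fun h' => h (h' ▸ ht)
    have hut : u ≠ t := fun h' => (hTs ht).2 (h' ▸ hu)
    have hul : u ≠ l := fun h' => hl.2 (h' ▸ hu)
    have hum : u ≠ m := fun h' => hm.2 (h' ▸ hu)
    have cases3 : ∀ x ∈ S1 ∪ (S2 ∪ S3), p ∈ x → x = thru p S1 ∨ x = thru p S2 ∨ x = thru p S3 := by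
      rintro x (hx | hx | hx) hpx
      · exact Or.inl (thru_eq hp h1 hx hpx).symm
      · exact Or.inr (Or.inl (thru_eq hp h2 hx hpx).symm)
      · exact Or.inr (Or.inr (thru_eq hp h3 hx hpx).symm)
    have cl := cases3 l hl.1 hpl
    have cm := cases3 m hm.1 hpm
    have ct := cases3 t (hTs ht).1 hpt
    have cu := cases3 u (hUs hu) hpu
    rcases cl with cl | cl | cl <;> rcases cm with cm | cm | cm <;>
      rcases ct with ct | ct | ct <;> rcases cu with cu | cu | cu <;>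
      first
      | exact hne (cl.trans cm.symm)
      | exact htl (ct.trans cl.symm)
      | exact htm (ct.trans cm.symm)
      | exact hut (cu.trans ct.symm)
      | exact hul (cu.trans cl.symm)
      | exact hum (cu.trans cm.symm)

lemma deficiency_two [FiniteDimensional K V] (hV : finrank K V = 4)
    {P0 : Set (Set (Submodule K V))} (h0 : IsPack P0) {S1 S2 S3 U : Set (Submodule K V)}
    (h1 : S1 ∈ P0) (h2 : S2 ∈ P0) (h3 : S3 ∈ P0) (h12 : S1 ≠ S2) (h13 : S1 ≠ S3)
    (h23 : S2 ≠ S3) (hU : IsPart U) (hUs : U ⊆ S1 ∪ (S2 ∪ S3))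
    (hodd : ∀ T : Set (Submodule K V), IsPart T → ¬ T ⊆ (S1 ∪ (S2 ∪ S3)) \ U) :
    IsCompletePartialPacking K V (insert U (P0 \ {S1, S2, S3})) 2 := by
  have : Finite V := Module.finite_of_finite K
  have hfin : Finite (Submodule K V) := inferInstance
  have hnt : Nontrivial V := by
    apply Module.nontrivial_of_finrank_pos (R := K)
    omega
  have hdis : ∀ S ∈ P0 \ {S1, S2, S3}, Disjoint U S := by
    rintro S ⟨hS, hS'⟩
    simp only [Set.mem_insert_iff, Set.mem_singleton_iff, not_or] at hS'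
    rw [Set.disjoint_left]
    intro l hl hlS
    rcases hUs hl with h | h | h
    · exact Set.disjoint_left.mp (h0.disj S hS S1 h1 hS'.1) hlS h
    · exact Set.disjoint_left.mp (h0.disj S hS S2 h2 hS'.2.1) hlS h
    · exact Set.disjoint_left.mp (h0.disj S hS S3 h3 hS'.2.2) hlS h
  have hUnot : U ∉ P0 \ {S1, S2, S3} := by
    intro h
    have h4 := hdis U h
    rw [disjoint_self] at h4
    obtain ⟨l, hl⟩ := hU.nonempty
    rw [h4] at hl
    exact hl
  refine ⟨?_, ?_, ?_, ?_⟩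
  · rintro S (rfl | ⟨hS, _⟩)
    · exact hU.isSpread hV
    · exact (h0.part S hS).isSpread hV
  · rintro S (rfl | hS) T (rfl | hT) hne
    · exact absurd rfl hne
    · exact hdis T hT
    · exact (hdis S hS).symm
    · exact h0.disj S hS.1 T hT.1 hne
  · rw [Set.ncard_insert_of_notMem hUnot (Set.toFinite _),
      Set.ncard_diff _ (Set.toFinite _), h0.ncard]
    · have : ({S1, S2, S3} : Set (Set (Submodule K V))).ncard = 3 :=
        Set.ncard_eq_three.mpr ⟨S1, S2, S3, h12, h13, h23, rfl⟩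
      rw [this]
      have hq2 : 2 ≤ Fintype.card K := Fintype.one_lt_card
      have : 2 ≤ Fintype.card K ^ 2 := by nlinarith
      omega
    · intro S hS
      simp only [Set.mem_insert_iff, Set.mem_singleton_iff] at hS
      rcases hS with rfl | rfl | rfl
      · exact h1
      · exact h2
      · exact h3
  · intro T hT
    by_contra hcon
    push Not at hcon
    have hTp := hT.isPart hV
    apply hodd T hTp
    intro l hl
    have hlU : l ∉ U := by
      intro h
      exact Set.disjoint_left.mp (hcon U (Set.mem_insert _ _)) h hl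
    refine ⟨?_, hlU⟩
    obtain ⟨S, hS, hlS⟩ := h0.cover l (hT.line l hl)
    by_cases hS' : S ∈ ({S1, S2, S3} : Set (Set (Submodule K V)))
    · simp only [Set.mem_insert_iff, Set.mem_singleton_iff] at hS'
      rcases hS' with rfl | rfl | rfl
      · exact Or.inl hlS
      · exact Or.inr (Or.inl hlS)
      · exact Or.inr (Or.inr hlS)
    · exfalso
      exact Set.disjoint_left.mp (hcon S (Set.mem_insert_of_mem _ ⟨hS, hS'⟩)) hlS hl

end Abstract

section Concrete

variable {K : Type*} [Field K] {E : K} [Hab : Fact (∀ r : K, r ^ 2 ≠ E + 0 * r)]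

lemma hilbert {A B : QuadraticAlgebra K E 0}
    (h : QuadraticAlgebra.norm A = QuadraticAlgebra.norm B) (hA : A ≠ 0) :
    ∃ X : QuadraticAlgebra K E 0, X ≠ 0 ∧ A * X = B * star X := by
  have hA' : star A ≠ 0 := fun h' => hA (star_eq_zero.mp h')
  have h1 : A * star A = B * star B := by
    rw [← algebraMap_norm_eq_mul_star, ← algebraMap_norm_eq_mul_star, h]
  have hω := omega_ne_zero (K := K) (E := E)
  have hsω : star (ω : QuadraticAlgebra K E 0) = -ω := by ext <;> simp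
  by_cases h0 : B + star A = 0
  · refine ⟨ω * star A, mul_ne_zero hω hA', ?_⟩
    have hB : B = -star A := eq_neg_of_add_eq_zero_left h0
    rw [hB, star_mul', star_star, hsω]; ring
  · refine ⟨B + star A, h0, ?_⟩
    rw [star_add, star_star]
    linear_combination h1

variable [Fintype K]

lemma isPack (h2 : (2 : K) ≠ 0) {β : QuadraticAlgebra K E 0}
    (hβ : ¬ IsSquare (QuadraticAlgebra.norm β)) :
    IsPack (insert Sig (HallSet β)) := by
  have hβ0 : β ≠ 0 := by
    rintro rfl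
    apply hβ
    simp
  have hnot : Sig ∉ HallSet β := by
    rintro ⟨u, v, hv, h⟩
    have h3 := Sig_disjoint_Spr h2 hβ0 u hv
    rw [← h, disjoint_self] at h3
    have h4 : (lineInf : Submodule K (QuadraticAlgebra K E 0 × QuadraticAlgebra K E 0)) ∈
      (Sig : Set (Submodule K (QuadraticAlgebra K E 0 × QuadraticAlgebra K E 0))) := Or.inl rfl
    rw [h3] at h4
    exact h4
  have : Finite (QuadraticAlgebra K E 0) := Finite.of_equiv _ (equivProd E 0).symm
  refine ⟨?_, ?_, ?_, ?_⟩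
  · rintro S (rfl | ⟨u, v, hv, rfl⟩)
    · exact Sig_isPart
    · exact Spr_isPart hβ u hv
  · rintro S (rfl | ⟨u, v, hv, rfl⟩) T (rfl | ⟨u', v', hv', rfl⟩) hne
    · exact absurd rfl hne
    · exact Sig_disjoint_Spr h2 hβ0 _ hv'
    · exact (Sig_disjoint_Spr h2 hβ0 _ hv).symm
    · exact Spr_eq_or_disjoint h2 hβ0 hv hv' hne
  · intro l hl
    rcases covering h2 hβ0 hl with h | ⟨u, v, hv, h⟩
    · exact ⟨_, Set.mem_insert _ _, h⟩
    · exact ⟨_, Set.mem_insert_of_mem _ ⟨u, v, hv, rfl⟩, h⟩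
  · rw [Set.ncard_insert_of_notMem hnot (Set.toFinite _), card_HallSet h2 hβ0]

/-- The set of lines left over. -/
def Left (β : QuadraticAlgebra K E 0) (I : Set K) :
    Set (Submodule K (QuadraticAlgebra K E 0 × QuadraticAlgebra K E 0)) :=
  (Sig ∪ (Spr β 0 1 ∪ Spr β 0 ω)) \ Mix β I

omit [Fintype K] in
lemma left_r (β : QuadraticAlgebra K E 0) (I : Set K) {x : QuadraticAlgebra K E 0} (hx : x ≠ 0) :
    lineB 0 1 x ∈ Left β I := by
  refine ⟨Or.inr (Or.inl (Or.inr ⟨x, hx, rfl⟩)), ?_⟩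
  rintro (h | ⟨m, a, _, h⟩ | ⟨m, a, _, h⟩)
  · exact lineB_ne_lineInf _ _ hx h
  · exact lineG_ne_lineB _ _ _ one_ne_zero hx h.symm
  · exact lineG_ne_lineB _ _ _ one_ne_zero hx h.symm

omit [Fintype K] in
lemma left_r' (β : QuadraticAlgebra K E 0) (I : Set K) {x : QuadraticAlgebra K E 0} (hx : x ≠ 0) :
    lineB 0 ω x ∈ Left β I := by
  refine ⟨Or.inr (Or.inr (Or.inr ⟨x, hx, rfl⟩)), ?_⟩
  rintro (h | ⟨m, a, _, h⟩ | ⟨m, a, _, h⟩)
  · exact lineB_ne_lineInf _ _ hx h
  · exact lineG_ne_lineB _ _ _ omega_ne_zero hx h.symm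
  · exact lineG_ne_lineB _ _ _ omega_ne_zero hx h.symm

omit [Fintype K] in
lemma smul_one_eq_smul_omega {s t : K}
    (h : s • (1 : QuadraticAlgebra K E 0) = t • ω) : s = 0 ∧ t = 0 := by
  have e1 := congrArg QuadraticAlgebra.re h
  have e2 := congrArg QuadraticAlgebra.im h
  simp at e1 e2
  exact ⟨e1, e2.symm⟩

omit [Fintype K] in
lemma left_w (h2 : (2 : K) ≠ 0) {β : QuadraticAlgebra K E 0} (hβ0 : β ≠ 0) (I : Set K) {m a : K}
    (ha : a ≠ 0) (hI : m ^ 2 - QuadraticAlgebra.norm β * a ^ 2 ∉ I) :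
    lineG (m • (1 : QuadraticAlgebra K E 0)) (a • β) ∈ Left β I := by
  refine ⟨Or.inr (Or.inl (Or.inl ⟨m, a, ha, ?_⟩)), ?_⟩
  · rw [zero_add, one_mul]
  · rintro (h | ⟨m', a', hI', h⟩ | ⟨s, t, _, h⟩)
    · exact lineG_ne_lineInf _ _ h
    · obtain ⟨e1, e2⟩ := lineG_inj h2 h
      have e3 := smul_left_injective K (one_ne_zero (α := QuadraticAlgebra K E 0)) e1
      have e4 := smul_left_injective K hβ0 e2
      rw [e3, e4] at hI
      exact hI hI'
    · obtain ⟨e1, e2⟩ := lineG_inj h2 h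
      have e3 : a • (1 : QuadraticAlgebra K E 0) = t • ω := by
        apply mul_right_cancel₀ hβ0
        rw [smul_mul_assoc, smul_mul_assoc, one_mul, e2]
      exact ha (smul_one_eq_smul_omega e3).1

omit [Fintype K] in
lemma left_w' (h2 : (2 : K) ≠ 0) {β : QuadraticAlgebra K E 0} (hβ0 : β ≠ 0) (I : Set K) {s t : K}
    (ht : t ≠ 0) (hI : E * (s ^ 2 - QuadraticAlgebra.norm β * t ^ 2) ∈ I) :
    lineG (s • (ω : QuadraticAlgebra K E 0)) (t • (ω * β)) ∈ Left β I := by
  refine ⟨Or.inr (Or.inr (Or.inl ⟨s, t, ht, ?_⟩)), ?_⟩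
  · rw [zero_add]
  · rintro (h | ⟨m', a', hI', h⟩ | ⟨s', t', hI', h⟩)
    · exact lineG_ne_lineInf _ _ h
    · obtain ⟨e1, e2⟩ := lineG_inj h2 h
      have e3 : a' • (1 : QuadraticAlgebra K E 0) = t • ω := by
        apply mul_right_cancel₀ hβ0
        rw [smul_mul_assoc, smul_mul_assoc, one_mul, e2]
      exact ht (smul_one_eq_smul_omega e3).2
    · obtain ⟨e1, e2⟩ := lineG_inj h2 h
      have hω := omega_ne_zero (K := K) (E := E)
      have e3 := smul_left_injective K hω e1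
      have e4 := smul_left_injective K (mul_ne_zero hω hβ0) e2
      rw [← e3, ← e4] at hI'
      exact hI' hI

omit [Fintype K] in
lemma left_sigma (h2 : (2 : K) ≠ 0) {β : QuadraticAlgebra K E 0} (I : Set K)
    {α : QuadraticAlgebra K E 0} (h3 : α.re ≠ 0) (h4 : α.im ≠ 0) :
    lineG α 0 ∈ Left β I := by
  refine ⟨Or.inl (Or.inr ⟨α, rfl⟩), ?_⟩
  rintro (h | ⟨m', a', hI', h⟩ | ⟨s', t', hI', h⟩)
  · exact lineG_ne_lineInf _ _ h
  · have := (lineG_inj h2 h).1
    apply h4
    rw [this]; simp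
  · have := (lineG_inj h2 h).1
    apply h3
    rw [this]; simp

lemma exists_deficiency_two (h2 : (2 : K) ≠ 0) {β : QuadraticAlgebra K E 0}
    (hβ : ¬ IsSquare (QuadraticAlgebra.norm β)) (I : Set K)
    (hodd : ∀ T : Set (Submodule K (QuadraticAlgebra K E 0 × QuadraticAlgebra K E 0)),
      IsPart T → (∀ l ∈ Left β I, ∀ m ∈ Left β I, l ≠ m → ∀ p, p ≠ 0 → p ∈ l → p ∈ m →
        (l ∈ T ↔ m ∉ T)) → False) :
    ∃ P, IsCompletePartialPacking K (QuadraticAlgebra K E 0 × QuadraticAlgebra K E 0) P 2 := by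
  have hβ0 : β ≠ 0 := by
    rintro rfl
    apply hβ
    simp
  have hω := omega_ne_zero (K := K) (E := E)
  refine ⟨_, deficiency_two finrank_V (isPack h2 hβ) (S1 := Sig) (S2 := Spr β 0 1)
    (S3 := Spr β 0 ω) (U := Mix β I) ?_ ?_ ?_ ?_ ?_ ?_ (Mix_isPart hβ I) (Mix_subset β I) ?_⟩
  · exact Set.mem_insert _ _
  · exact Set.mem_insert_of_mem _ ⟨0, 1, one_ne_zero, rfl⟩
  · exact Set.mem_insert_of_mem _ ⟨0, ω, hω, rfl⟩
  · intro h
    have h3 := Sig_disjoint_Spr h2 hβ0 0 (one_ne_zero (α := QuadraticAlgebra K E 0))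
    rw [h, disjoint_self] at h3
    have h4 := lineB_mem β 0 1
    rw [h3] at h4
    exact h4
  · intro h
    have h3 := Sig_disjoint_Spr h2 hβ0 0 hω
    rw [h, disjoint_self] at h3
    have h4 := lineB_mem β 0 ω
    rw [h3] at h4
    exact h4
  · intro h
    have h3 : lineB 0 1 1 ∈ Spr β 0 ω := by rw [← h]; exact lineB_mem β 0 1
    obtain ⟨k, k', hk', _, h4⟩ := Spr_inter h2 hβ0 one_ne_zero hω (lineB_mem β 0 1) h3
    exact hk' (smul_one_eq_smul_omega (E := E) (s := k') (t := 1) (by rw [one_smul, ← h4])).1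
  · intro T hT hTs
    apply hodd T hT
    intro l hl m hm hne p hp hpl hpm
    exact flip Sig_isPart (Spr_isPart hβ 0 one_ne_zero) (Spr_isPart hβ 0 hω) (Mix_isPart hβ I)
      (Mix_subset β I) hT hTs hl hm hne hp hpl hpm

end Concrete

end Pool.Agent.Lib.MP_9569f1_co
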