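import Mathlib

set_option autoImplicit false

namespace Pool.Agent.Lib.MP_9569f1_co

section

variable {K : Type*} [Field K] [Fintype K]

lemma sq_of_nsq_nsq {a b : K} (ha : ¬ IsSquare a) (hb : ¬ IsSquare b) : IsSquare (a * b) := by
  classical
  have ha0 : a ≠ 0 := fun h => ha (h ▸ IsSquare.zero)
  have hb0 : b ≠ 0 := fun h => hb (h ▸ IsSquare.zero)
  rw [← quadraticChar_one_iff_isSquare (mul_ne_zero ha0 hb0), map_mul,
    quadraticChar_neg_one_iff_not_isSquare.mpr ha, quadraticChar_neg_one_iff_not_isSquare.mpr hb]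
  norm_num

lemma nsq_of_sq_nsq {a b : K} (ha : IsSquare a) (ha0 : a ≠ 0) (hb : ¬ IsSquare b) :
    ¬ IsSquare (a * b) := by
  rintro h
  apply hb
  have : b = (a * b) * a⁻¹ := by field_simp
  rw [this]
  exact h.mul ha.inv

lemma sq_div_iff {a b : K} (hb0 : b ≠ 0) (hb : ¬ IsSquare b) (ha0 : a ≠ 0) :
    IsSquare (a / b) ↔ ¬ IsSquare a := by
  constructor
  · intro h ha
    have hb0' : a / b ≠ 0 := div_ne_zero ha0 hb0
    have := nsq_of_sq_nsq h hb0' hb
    rw [div_mul_cancel₀ _ hb0] at this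
    exact this ha
  · intro ha
    have hb' : ¬ IsSquare b⁻¹ := fun h => hb (by simpa using h.inv)
    rw [div_eq_mul_inv]
    exact sq_of_nsq_nsq ha hb'

/-- Case `-1` not a square. -/
lemma params_of_neg_one_nsq (h1 : ¬ IsSquare (-1 : K)) :
    ∃ E f τ A B : K, ¬ IsSquare E ∧ f ≠ 0 ∧ τ ^ 2 = E * (1 + f ^ 2) ∧
      A ^ 2 = E * (1 + E * f ^ 2) ∧ B ^ 2 = E + f ^ 2 := by
  classical
  have hex : ∃ N : ℕ, ¬ IsSquare (N : K) := by
    obtain ⟨p, hp⟩ := CharP.exists K
    have hp0 : p ≠ 0 := CharP.char_ne_zero_of_finite K p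
    refine ⟨p - 1, ?_⟩
    rw [Nat.cast_sub (by omega), CharP.cast_eq_zero]
    simpa using h1
  set N := Nat.find hex with hN
  have hNs : ¬ IsSquare (N : K) := Nat.find_spec hex
  have hlt : ∀ m < N, IsSquare (m : K) := fun m hm => by
    have := Nat.find_min hex hm
    simpa using this
  have hN2 : 2 ≤ N := by
    by_contra hlt2
    interval_cases h : N
    · exact hNs (by simp)
    · exact hNs (by simp)
  obtain ⟨n, hn⟩ : ∃ n, N = n + 2 := ⟨N - 2, by omega⟩
  obtain ⟨f, hf⟩ := hlt (n + 1) (by omega)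
  obtain ⟨B, hB⟩ := hlt n (by omega)
  have hτ : IsSquare ((-1) * (N : K)) := sq_of_nsq_nsq h1 hNs
  obtain ⟨τ, hτ⟩ := hτ
  refine ⟨-1, f, τ, B, B, h1, ?_, ?_, ?_, ?_⟩
  · rintro rfl
    apply hNs
    rw [hn]
    have : (n : K) + 1 = 0 := by simpa using hf
    have h2 : ((n + 2 : ℕ) : K) = 1 := by
      push_cast
      linear_combination this
    rw [h2]; exact IsSquare.one
  · rw [hn] at hτ
    push_cast at hτ hf
    linear_combination (-1 : K) * hτ - hf
  · push_cast at hf hB
    linear_combination (-1 : K) * hB + hf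
  · push_cast at hf hB
    linear_combination (-1 : K) * hB + hf

open Classical in
/-- Case `-1` a square. -/
lemma params_of_neg_one_sq (h1 : IsSquare (-1 : K)) (hK : 7 ≤ Fintype.card K)
    (hchar : (2 : K) ≠ 0) :
    ∃ E f τ A B : K, ¬ IsSquare E ∧ f ≠ 0 ∧ τ ^ 2 = E * (1 + f ^ 2) ∧
      A ^ 2 = E * (1 + E * f ^ 2) ∧ B ^ 2 = E + f ^ 2 := by
  have hring : ringChar K ≠ 2 := by
    intro h
    apply hchar
    have : ((2 : ℕ) : K) = 0 := by rw [← h]; exact ringChar.Nat.cast_ringChar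
    exact_mod_cast this
  obtain ⟨i, hi⟩ := h1
  have h1 : IsSquare (-1 : K) := ⟨i, hi⟩
  -- nonsquares and nonzero squares
  set Ns : Finset K := Finset.univ.filter (fun x => ¬ IsSquare x) with hNs
  set Sq : Finset K := Finset.univ.filter (fun x => x ≠ 0 ∧ IsSquare x) with hSq
  have memNs : ∀ x, x ∈ Ns ↔ ¬ IsSquare x := fun x => by simp [hNs]
  have memSq : ∀ x, x ∈ Sq ↔ x ≠ 0 ∧ IsSquare x := fun x => by simp [hSq]
  have ne0 : ∀ x : K, ¬ IsSquare x → x ≠ 0 := fun x hx h => hx (h ▸ IsSquare.zero)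
  obtain ⟨ν0, hν0⟩ := quadraticChar_exists_neg_one (F := K) hring
  rw [quadraticChar_neg_one_iff_not_isSquare] at hν0
  have hν00 := ne0 _ hν0
  have hcard : Ns.card = Sq.card := by
    refine Finset.card_bij' (fun x _ => x / ν0) (fun x _ => x * ν0) ?_ ?_ ?_ ?_
    · intro x hx
      rw [memNs] at hx
      rw [memSq]
      exact ⟨div_ne_zero (ne0 _ hx) hν00, (sq_div_iff hν00 hν0 (ne0 _ hx)).mpr hx⟩
    · intro x hx
      rw [memSq] at hx
      rw [memNs]
      exact nsq_of_sq_nsq hx.2 hx.1 hν0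
    · intro x hx; field_simp
    · intro x hx; field_simp
  have htot : Fintype.card K = Ns.card + Sq.card + 1 := by
    have h0 : (Finset.univ : Finset K) = insert 0 (Ns ∪ Sq) := by
      ext x
      simp only [Finset.mem_univ, Finset.mem_insert, Finset.mem_union, memNs, memSq, true_iff]
      by_cases hx : x = 0
      · exact Or.inl hx
      · by_cases hs : IsSquare x
        · exact Or.inr (Or.inr ⟨hx, hs⟩)
        · exact Or.inr (Or.inl hs)
    have hdis : Disjoint Ns Sq := by
      rw [Finset.disjoint_left]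
      intro x hx hx'
      exact ((memNs x).mp hx) ((memSq x).mp hx').2
    have hnot : (0 : K) ∉ Ns ∪ Sq := by
      rw [Finset.mem_union, memNs, memSq]
      simp
    rw [← Finset.card_univ, h0, Finset.card_insert_of_notMem hnot, Finset.card_union_of_disjoint hdis]
  have hNs3 : 3 ≤ Ns.card := by omega
  -- choice of ν
  obtain ⟨ν, hν, hν2⟩ : ∃ ν : K, ¬ IsSquare ν ∧ ν ^ 2 ≠ -1 := by
    by_contra hcon
    push Not at hcon
    have hsub : Ns ⊆ {i, -i} := by
      intro x hx
      have h2 := hcon x ((memNs x).mp hx)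
      have h3 : (x - i) * (x + i) = 0 := by
        linear_combination h2 + hi
      rcases mul_eq_zero.mp h3 with h | h
      · simp [sub_eq_zero.mp h]
      · simp [eq_neg_of_add_eq_zero_left h]
    have := Finset.card_le_card hsub
    have h4 := Finset.card_le_two (a := i) (b := -i)
    omega
  have hν0' : ν ≠ 0 := ne0 _ hν
  have hν1 : ν + 1 ≠ 0 := by
    intro h
    apply hν
    rw [eq_neg_of_add_eq_zero_left h]; exact h1
  have hν1' : ν - 1 ≠ 0 := by
    intro h
    apply hν
    rw [sub_eq_zero.mp h]; exact IsSquare.one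
  set g := (ν - 1) / (ν + 1) with hg
  have hg0 : g ≠ 0 := div_ne_zero hν1' hν1
  set κ := g ^ 2 with hκ
  have hκ0 : κ ≠ 0 := pow_ne_zero 2 hg0
  have hκs : IsSquare κ := ⟨g, by rw [hκ]; ring⟩
  have hκ1 : ¬ IsSquare (1 - κ) := by
    have h2 : 1 - κ = (2 / (ν + 1)) ^ 2 * ν := by
      rw [hκ, hg]; field_simp; ring
    rw [h2]
    refine nsq_of_sq_nsq ⟨2 / (ν + 1), by ring⟩ (pow_ne_zero 2 (div_ne_zero hchar hν1)) hν
  have hκ1' : 1 - κ ≠ 0 := ne0 _ hκ1
  have hκ2 : 1 + κ ≠ 0 := by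
    intro h
    apply hν2
    have h2 : (ν + 1) ^ 2 * (1 + κ) = 2 * (ν ^ 2 + 1) := by
      rw [hκ, hg]; field_simp; ring
    rw [h, mul_zero] at h2
    have h3 : ν ^ 2 + 1 = 0 := by
      rcases mul_eq_zero.mp h2.symm with h | h
      · exact absurd h hchar
      · exact h
    exact eq_neg_of_add_eq_zero_left h3
  have hEκ : ∀ E : K, ¬ IsSquare E → E - κ ≠ 0 := by
    intro E hE h
    apply hE
    rw [sub_eq_zero.mp h]; exact hκs
  have hκE : ∀ E : K, ¬ IsSquare E → 1 - κ * E ≠ 0 := by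
    intro E hE h
    have : κ * E = 1 := (sub_eq_zero.mp h).symm
    exact nsq_of_sq_nsq hκs hκ0 hE (this ▸ IsSquare.one)
  -- main claim
  have claim : ∃ E : K, ¬ IsSquare E ∧ IsSquare (E - κ) ∧ ¬ IsSquare (1 - κ * E) := by
    by_contra hcon
    push Not at hcon
    set A := Ns.filter (fun E => IsSquare (E - κ)) with hA
    set A' := Ns.filter (fun E => ¬ IsSquare (E - κ)) with hA'
    set B := Ns.filter (fun E => IsSquare (1 - κ * E)) with hB
    set B' := Ns.filter (fun E => ¬ IsSquare (1 - κ * E)) with hB'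
    have hAA' : A.card + A'.card = Ns.card := Finset.card_filter_add_card_filter_not _
    have hBB' : B.card + B'.card = Ns.card := Finset.card_filter_add_card_filter_not _
    have memA : ∀ x, x ∈ A ↔ ¬ IsSquare x ∧ IsSquare (x - κ) := fun x => by simp [hA, memNs]
    have memA' : ∀ x, x ∈ A' ↔ ¬ IsSquare x ∧ ¬ IsSquare (x - κ) := fun x => by
      simp [hA', memNs]
    have memB : ∀ x, x ∈ B ↔ ¬ IsSquare x ∧ IsSquare (1 - κ * x) := fun x => by
      simp [hB, memNs]
    have memB' : ∀ x, x ∈ B' ↔ ¬ IsSquare x ∧ ¬ IsSquare (1 - κ * x) := fun x => by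
      simp [hB', memNs]
    have hAB : A ⊆ B := by
      intro x hx
      rw [memA] at hx
      rw [memB]
      exact ⟨hx.1, hcon x hx.1 hx.2⟩
    -- first involution
    have hinv : ∀ x : K, ¬ IsSquare x → ¬ IsSquare (x⁻¹) := fun x hx h => hx (by simpa using h.inv)
    have key1 : ∀ x : K, ¬ IsSquare x → (IsSquare (κ ^ 2 * x⁻¹ - κ) ↔ ¬ IsSquare (x - κ)) := by
      intro x hx
      have hx0 := ne0 _ hx
      have h2 : κ ^ 2 * x⁻¹ - κ = (κ * (-1) * (x - κ)) / x := by field_simp; ring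
      rw [h2, sq_div_iff hx0 hx (mul_ne_zero (mul_ne_zero hκ0 (by simp)) (hEκ x hx))]
      constructor
      · intro h3 h4
        exact h3 ((hκs.mul h1).mul h4)
      · intro h3
        exact nsq_of_sq_nsq (hκs.mul h1) (mul_ne_zero hκ0 (by simp)) h3
    have hcA : A.card = A'.card := by
      refine Finset.card_bij' (fun x _ => κ ^ 2 * x⁻¹) (fun x _ => κ ^ 2 * x⁻¹) ?_ ?_ ?_ ?_
      · intro x hx
        rw [memA] at hx
        rw [memA']
        refine ⟨nsq_of_sq_nsq ⟨κ, by ring⟩ (pow_ne_zero 2 hκ0) (hinv x hx.1), ?_⟩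
        intro h
        exact ((key1 x hx.1).mp h) hx.2
      · intro x hx
        rw [memA'] at hx
        rw [memA]
        exact ⟨nsq_of_sq_nsq ⟨κ, by ring⟩ (pow_ne_zero 2 hκ0) (hinv x hx.1),
          (key1 x hx.1).mpr hx.2⟩
      · intro x hx
        have hx0 := ne0 _ ((memA x).mp hx).1
        field_simp
      · intro x hx
        have hx0 := ne0 _ ((memA' x).mp hx).1
        field_simp
    have key2 : ∀ x : K, ¬ IsSquare x → (IsSquare (x⁻¹ - κ) ↔ ¬ IsSquare (1 - κ * x)) := by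
      intro x hx
      have hx0 := ne0 _ hx
      have h2 : x⁻¹ - κ = (1 - κ * x) / x := by field_simp
      rw [h2, sq_div_iff hx0 hx (hκE x hx)]
    have hcB : A.card = B'.card := by
      refine Finset.card_bij' (fun x _ => x⁻¹) (fun x _ => x⁻¹) ?_ ?_ ?_ ?_
      · intro x hx
        rw [memA] at hx
        rw [memB']
        refine ⟨hinv x hx.1, ?_⟩
        intro h
        have := (key2 x⁻¹ (hinv x hx.1)).mp (by rw [inv_inv]; exact hx.2)
        exact this h
      · intro x hx
        rw [memB'] at hx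
        rw [memA]
        exact ⟨hinv x hx.1, (key2 x hx.1).mpr hx.2⟩
      · intro x hx; simp
      · intro x hx; simp
    have hABeq : A = B := Finset.eq_of_subset_of_card_le hAB (by omega)
    -- the Moebius map
    have hmap : ∀ x ∈ Ns, (x - κ) / (1 - κ * x) ∈ Sq.erase (-κ) := by
      intro x hx
      rw [memNs] at hx
      have h2 := hκE x hx
      have h3 := hEκ x hx
      rw [Finset.mem_erase, memSq]
      refine ⟨?_, div_ne_zero h3 h2, ?_⟩
      · intro h4
        rw [div_eq_iff h2] at h4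
        have h5 : x * ((1 - κ) * (1 + κ)) = 0 := by linear_combination h4
        exact (mul_ne_zero (ne0 _ hx) (mul_ne_zero hκ1' hκ2)) h5
      · by_cases h4 : IsSquare (x - κ)
        · have h5 : x ∈ B := by rw [← hABeq, memA]; exact ⟨hx, h4⟩
          exact h4.div ((memB x).mp h5).2
        · have h5 : x ∉ B := by
            rw [← hABeq, memA]
            exact fun h => h4 h.2
          have h6 : ¬ IsSquare (1 - κ * x) := fun h => h5 ((memB x).mpr ⟨hx, h⟩)
          exact (sq_div_iff h2 h6 h3).mpr h4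
    have hinj : Set.InjOn (fun x : K => (x - κ) / (1 - κ * x)) Ns := by
      intro x hx y hy hxy
      rw [Finset.mem_coe, memNs] at hx hy
      have h2 := hκE x hx
      have h3 := hκE y hy
      have h4 : (x - κ) / (1 - κ * x) = (y - κ) / (1 - κ * y) := hxy
      rw [div_eq_div_iff h2 h3] at h4
      have h5 : (x - y) * ((1 - κ) * (1 + κ)) = 0 := by linear_combination h4
      rcases mul_eq_zero.mp h5 with h | h
      · exact sub_eq_zero.mp h
      · exact absurd h (mul_ne_zero hκ1' hκ2)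
    have hle := Finset.card_le_card_of_injOn _ hmap hinj
    have hmem : -κ ∈ Sq := by
      rw [memSq]
      refine ⟨neg_ne_zero.mpr hκ0, ?_⟩
      have : -κ = -1 * κ := by ring
      rw [this]; exact h1.mul hκs
    rw [Finset.card_erase_of_mem hmem] at hle
    have : 0 < Sq.card := Finset.card_pos.mpr ⟨_, hmem⟩
    omega
  obtain ⟨E, hE, hEs, hEn⟩ := claim
  obtain ⟨B, hB⟩ := hEs
  obtain ⟨A, hA⟩ := sq_of_nsq_nsq hE hEn
  obtain ⟨τ, hτ⟩ := sq_of_nsq_nsq hE hκ1
  have hi0 : i ≠ 0 := by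
    rintro rfl
    simp at hi
  have hf2 : (i * g) ^ 2 = -κ := by
    rw [hκ]; linear_combination (-g ^ 2) * hi
  refine ⟨E, i * g, τ, A, B, hE, mul_ne_zero hi0 hg0, ?_, ?_, ?_⟩
  · rw [hf2]; linear_combination (-1 : K) * hτ
  · rw [hf2]; linear_combination (-1 : K) * hA
  · rw [hf2]; linear_combination (-1 : K) * hB

end

end Pool.Agent.Lib.MP_9569f1_co
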