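import Pool.Agent.Lib.MP_9569f1_co.Combine
import Pool.Agent.Lib.MP_9569f1_co.Field

set_option autoImplicit false

namespace Pool.Agent.Lib.MP_9569f1_co

open Module QuadraticAlgebra

section

variable {K : Type*} [Field K] [Fintype K]

/-- The general case: a cycle of length five in the remaining set of lines. -/
lemma five_cycle (h2 : (2 : K) ≠ 0) {E f τ A B : K} (hE : ¬ IsSquare E) (hf : f ≠ 0)
    (hτ : τ ^ 2 = E * (1 + f ^ 2)) (hA : A ^ 2 = E * (1 + E * f ^ 2)) (hB : B ^ 2 = E + f ^ 2) :
    ∃ P, IsCompletePartialPacking K (QuadraticAlgebra K E 0 × QuadraticAlgebra K E 0) P 2 := by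
  have Hab : Fact (∀ r : K, r ^ 2 ≠ E + 0 * r) := by
    refine ⟨fun r hr => hE ⟨r, ?_⟩⟩
    rw [zero_mul, add_zero] at hr
    rw [← hr]; ring
  have hE0 : E ≠ 0 := fun h => hE (h ▸ IsSquare.zero)
  have hE1 : E ≠ 1 := fun h => hE (h ▸ IsSquare.one)
  set β : QuadraticAlgebra K E 0 := ⟨τ, f⟩ with hβdef
  have hN : QuadraticAlgebra.norm β = E := by
    rw [norm_def, hβdef]
    linear_combination hτ
  have hβ : ¬ IsSquare (QuadraticAlgebra.norm β) := by rw [hN]; exact hE
  have hβ0 : β ≠ 0 := by
    rintro h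
    apply hβ
    rw [h]; simp
  have hω := omega_ne_zero (K := K) (E := E)
  have hEf : E * f ^ 2 ≠ 0 := mul_ne_zero hE0 (pow_ne_zero 2 hf)
  set a : K := (A - τ) / (E * f ^ 2) with ha
  set t : K := (B - τ) / (E * f ^ 2) with ht
  have ea : a * (E * f ^ 2) = A - τ := by rw [ha]; field_simp
  have et : t * (E * f ^ 2) = B - τ := by rw [ht]; field_simp
  have ha0 : a ≠ 0 := by
    intro h
    rw [h, zero_mul] at ea
    have h3 : A = τ := (sub_eq_zero.mp ea.symm)
    rw [h3, hτ] at hA
    have h4 : E * f ^ 2 * (1 - E) = 0 := by linear_combination hA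
    rcases mul_eq_zero.mp h4 with h | h
    · exact hEf h
    · exact hE1 (sub_eq_zero.mp h).symm
  have ht0 : t ≠ 0 := by
    intro h
    rw [h, zero_mul] at et
    have h3 : B = τ := (sub_eq_zero.mp et.symm)
    rw [h3, hτ] at hB
    have h4 : f ^ 2 * (1 - E) = 0 := by linear_combination (-1 : K) * hB
    rcases mul_eq_zero.mp h4 with h | h
    · exact pow_ne_zero 2 hf h
    · exact hE1 (sub_eq_zero.mp h).symm
  -- the two quadratic equations
  have qa : 1 - E + 2 * a * τ + a ^ 2 * (E * f ^ 2) = 0 := by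
    apply mul_left_cancel₀ hEf
    have : E * f ^ 2 * (1 - E + 2 * a * τ + a ^ 2 * (E * f ^ 2)) =
      E * f ^ 2 * (1 - E) + 2 * τ * (a * (E * f ^ 2)) + (a * (E * f ^ 2)) ^ 2 := by ring
    rw [this, ea]
    linear_combination hA - hτ
  have qt : 1 - E - 2 * E * t * τ - E ^ 2 * t ^ 2 * f ^ 2 = 0 := by
    apply mul_left_cancel₀ (pow_ne_zero 2 hf)
    have : f ^ 2 * (1 - E - 2 * E * t * τ - E ^ 2 * t ^ 2 * f ^ 2) =
      f ^ 2 * (1 - E) - 2 * τ * (t * (E * f ^ 2)) - (t * (E * f ^ 2)) ^ 2 := by ring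
    rw [this, et]
    linear_combination hτ - hB
  have hτE : τ ^ 2 - E = E * f ^ 2 := by linear_combination hτ
  apply exists_deficiency_two h2 hβ {c | IsSquare c}
  intro T hT hflip
  -- the five lines
  have m1 := left_r β {c : K | IsSquare c} (one_ne_zero (α := QuadraticAlgebra K E 0))
  have m2 := left_r' β {c : K | IsSquare c} (one_ne_zero (α := QuadraticAlgebra K E 0))
  have m3 := left_w h2 hβ0 {c : K | IsSquare c} (m := -(a * τ)) (a := a) ha0 (by
    rw [hN, Set.mem_ofPred_eq]
    have : (-(a * τ)) ^ 2 - E * a ^ 2 = (a * f) ^ 2 * E := by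
      linear_combination (a ^ 2) * hτE
    rw [this]
    exact nsq_of_sq_nsq ⟨a * f, by ring⟩ (pow_ne_zero 2 (mul_ne_zero ha0 hf)) hE)
  have m4 := left_sigma h2 (β := β) {c : K | IsSquare c} (α := ⟨1, 1⟩) (one_ne_zero)
    (one_ne_zero)
  have m5 := left_w' h2 hβ0 {c : K | IsSquare c} (s := -(t * τ)) (t := t) ht0 (by
    rw [hN, Set.mem_ofPred_eq]
    refine ⟨E * t * f, ?_⟩
    linear_combination (E * t ^ 2) * hτE)
  -- r and r'
  have f12 := hflip _ m1 _ m2 (by
    intro h
    have h3 : ((0 : QuadraticAlgebra K E 0), (1 : QuadraticAlgebra K E 0)) ∈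
        lineB (0 : QuadraticAlgebra K E 0) ω 1 := by
      rw [← h]; exact ⟨0, 1, by simp, by simp⟩
    obtain ⟨c, d, h4, h5⟩ := h3
    simp only [mul_one] at h4 h5
    have hc : c = 0 := by
      rcases smul_eq_zero.mp h4.symm with h | h
      · exact h
      · exact absurd h one_ne_zero
    rw [hc, zero_smul, zero_add] at h5
    have := smul_one_eq_smul_omega (s := (1 : K)) (t := d) (by rw [one_smul]; exact h5)
    exact one_ne_zero this.1) ((1 : QuadraticAlgebra K E 0), (0 : QuadraticAlgebra K E 0))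
    (by simp) ⟨1, 0, by simp, by simp⟩ ⟨1, 0, by simp, by simp⟩
  -- r' and w
  have f23 := hflip _ m2 _ m3 (lineG_ne_lineB _ _ _ hω one_ne_zero).symm
    ((1 : QuadraticAlgebra K E 0), (a * f) • (ω : QuadraticAlgebra K E 0))
    (by simp) ⟨1, a * f, by simp, by simp⟩ (by
      rw [mem_mix1]
      ext <;> simp [hβdef])
  -- w and σ
  have f34 := hflip _ m3 _ m4 (by
    intro h
    have := (lineG_inj h2 h).2
    exact smul_ne_zero ha0 hβ0 this)
  obtain ⟨X1, hX1, hX1'⟩ := hilbert
    (A := (⟨1, 1⟩ : QuadraticAlgebra K E 0) - (-(a * τ)) • (1 : QuadraticAlgebra K E 0))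
    (B := a • β) (by
      rw [norm_smul', hN, norm_def]
      simp
      linear_combination qa + a ^ 2 * hτE) (by
      intro h
      have := congrArg QuadraticAlgebra.im h
      simp at this)
  have f34 := f34 (X1, (⟨1, 1⟩ : QuadraticAlgebra K E 0) * X1)
    (by intro h; exact hX1 (Prod.ext_iff.mp h).1) (by
      rw [mem_lineG]
      simp only
      linear_combination hX1') (by rw [mem_lineG]; simp)
  -- σ and w'
  have f45 := hflip _ m4 _ m5 (by
    intro h
    have := (lineG_inj h2 h).2
    exact smul_ne_zero ht0 (mul_ne_zero hω hβ0) this.symm)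
  obtain ⟨X2, hX2, hX2'⟩ := hilbert
    (A := (⟨1, 1⟩ : QuadraticAlgebra K E 0) - (-(t * τ)) • (ω : QuadraticAlgebra K E 0))
    (B := t • (ω * β)) (by
      rw [norm_smul', map_mul, hN, norm_def, norm_def]
      simp
      linear_combination qt - E * t ^ 2 * hτE) (by
      intro h
      have := congrArg QuadraticAlgebra.re h
      simp at this)
  have f45 := f45 (X2, (⟨1, 1⟩ : QuadraticAlgebra K E 0) * X2)
    (by intro h; exact hX2 (Prod.ext_iff.mp h).1) (by rw [mem_lineG]; simp) (by
      rw [mem_lineG]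
      simp only
      linear_combination hX2')
  -- w' and r
  have f51 := hflip _ m5 _ m1 (lineG_ne_lineB _ _ _ one_ne_zero one_ne_zero)
    ((1 : QuadraticAlgebra K E 0), (t * f * E) • (1 : QuadraticAlgebra K E 0))
    (by simp) (by
      rw [mem_lineG]
      ext
      · simp [hβdef]; ring
      · simp [hβdef]) ⟨1, t * f * E, by simp, by simp⟩
  tauto

/-- The field with five elements: a cycle of length seven. -/
lemma seven_cycle (h5 : Fintype.card K = 5) :
    ∃ E : K, ¬ IsSquare E ∧ ∃ P,
      IsCompletePartialPacking K (QuadraticAlgebra K E 0 × QuadraticAlgebra K E 0) P 2 := by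
  have c5 : (5 : K) = 0 := by
    have : ((Fintype.card K : ℕ) : K) = 0 := by simp
    rw [h5] at this
    exact_mod_cast this
  have h2 : (2 : K) ≠ 0 := by
    intro h
    have : (1 : K) = 0 := by linear_combination c5 - 2 * h
    exact one_ne_zero this
  have h3 : (3 : K) ≠ 0 := by
    intro h
    have : (1 : K) = 0 := by linear_combination 2 * h - c5
    exact one_ne_zero this
  have h4 : (4 : K) ≠ 0 := by
    intro h
    have : (1 : K) = 0 := by linear_combination c5 - h
    exact one_ne_zero this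
  have hns : ¬ IsSquare (2 : K) := by
    intro h
    let e := ZMod.ringEquivOfPrime K (p := 5) (by norm_num) h5
    have h6 : IsSquare (e.symm (2 : K)) := h.map e.symm
    rw [map_ofNat] at h6
    revert h6
    decide
  refine ⟨2, hns, ?_⟩
  have Hab : Fact (∀ r : K, r ^ 2 ≠ 2 + 0 * r) := by
    refine ⟨fun r hr => hns ⟨r, ?_⟩⟩
    rw [zero_mul, add_zero] at hr
    rw [← hr]; ring
  set β : QuadraticAlgebra K 2 0 := ⟨2, 1⟩ with hβdef
  have hN : QuadraticAlgebra.norm β = 2 := by
    rw [norm_def, hβdef]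
    norm_num
  have hβ : ¬ IsSquare (QuadraticAlgebra.norm β) := by rw [hN]; exact hns
  have hβ0 : β ≠ 0 := by
    rintro h
    apply hβ
    rw [h]; simp
  have hω := omega_ne_zero (K := K) (E := 2)
  apply exists_deficiency_two h2 hβ {4}
  intro T hT hflip
  have m1 := left_r β {(4 : K)} (one_ne_zero (α := QuadraticAlgebra K 2 0))
  have m2 := left_w' h2 hβ0 {(4 : K)} (s := 2) (t := 4) h4 (by
    rw [hN, Set.mem_singleton_iff]
    linear_combination (-12 : K) * c5)
  have m3 := left_sigma h2 (β := β) {(4 : K)} (α := ⟨1, 2⟩) one_ne_zero h2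
  have m4 := left_w h2 hβ0 {(4 : K)} (m := 2) (a := 2) h2 (by
    rw [hN, Set.mem_singleton_iff]
    intro h
    apply h3
    linear_combination -h - c5)
  have m5 := left_sigma h2 (β := β) {(4 : K)} (α := ⟨3, 2⟩) h3 h2
  have m6 := left_w h2 hβ0 {(4 : K)} (m := 4) (a := 2) h2 (by
    rw [hN, Set.mem_singleton_iff]
    intro h
    apply h4
    linear_combination h)
  have m7 := left_r' β {(4 : K)} hω
  have f12 := hflip _ m1 _ m2 (lineG_ne_lineB _ _ _ one_ne_zero one_ne_zero).symm
    ((1 : QuadraticAlgebra K 2 0), (3 : K) • (1 : QuadraticAlgebra K 2 0))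
    (by simp) ⟨1, 3, by simp, by simp⟩ (by
      rw [mem_lineG]
      ext
      · simp [hβdef]; linear_combination (-1 : K) * c5
      · simp [hβdef]; linear_combination (-2 : K) * c5)
  have f23 := hflip _ m2 _ m3 (by
    intro h
    have := (lineG_inj h2 h).2
    exact smul_ne_zero h4 (mul_ne_zero hω hβ0) this)
    ((⟨1, 2⟩ : QuadraticAlgebra K 2 0), (⟨4, 4⟩ : QuadraticAlgebra K 2 0))
    (by intro h; simpa using congrArg QuadraticAlgebra.re (Prod.ext_iff.mp h).1) (by
      rw [mem_lineG]
      ext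
      · simp [hβdef]; linear_combination (4 : K) * c5
      · simp [hβdef]; linear_combination (2 : K) * c5) (by
      rw [mem_lineG]
      ext
      · simp; linear_combination (-1 : K) * c5
      · simp <;> norm_num)
  have f34 := hflip _ m3 _ m4 (by
    intro h
    have := (lineG_inj h2 h).2
    exact smul_ne_zero h2 hβ0 this.symm)
    ((⟨1, 0⟩ : QuadraticAlgebra K 2 0), (⟨1, 2⟩ : QuadraticAlgebra K 2 0))
    (by intro h; simpa using congrArg QuadraticAlgebra.re (Prod.ext_iff.mp h).1) (by
      rw [mem_lineG]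
      ext
      · simp
      · simp) (by
      rw [mem_lineG]
      ext
      · simp [hβdef]; linear_combination (-1 : K) * c5
      · simp [hβdef])
  have f45 := hflip _ m4 _ m5 (by
    intro h
    have := (lineG_inj h2 h).2
    exact smul_ne_zero h2 hβ0 this)
    ((⟨1, 1⟩ : QuadraticAlgebra K 2 0), (⟨2, 0⟩ : QuadraticAlgebra K 2 0))
    (by intro h; simpa using congrArg QuadraticAlgebra.re (Prod.ext_iff.mp h).1) (by
      rw [mem_lineG]
      ext
      · simp [hβdef]
      · simp [hβdef]; norm_num) (by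
      rw [mem_lineG]
      ext
      · simp; linear_combination (-1 : K) * c5
      · simp; linear_combination (-1 : K) * c5)
  have f56 := hflip _ m5 _ m6 (by
    intro h
    have := (lineG_inj h2 h).2
    exact smul_ne_zero h2 hβ0 this.symm)
    ((⟨1, 0⟩ : QuadraticAlgebra K 2 0), (⟨3, 2⟩ : QuadraticAlgebra K 2 0))
    (by intro h; simpa using congrArg QuadraticAlgebra.re (Prod.ext_iff.mp h).1) (by
      rw [mem_lineG]
      ext
      · simp
      · simp) (by
      rw [mem_lineG]
      ext
      · simp [hβdef]; linear_combination (-1 : K) * c5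
      · simp [hβdef])
  have f67 := hflip _ m6 _ m7 (lineG_ne_lineB _ _ _ hω hω)
    ((⟨0, 1⟩ : QuadraticAlgebra K 2 0), (⟨1, 0⟩ : QuadraticAlgebra K 2 0))
    (by intro h; simpa using congrArg QuadraticAlgebra.im (Prod.ext_iff.mp h).1) (by
      rw [mem_lineG]
      ext
      · simp [hβdef]; linear_combination (1 : K) * c5
      · simp [hβdef]; norm_num) (by
      refine ⟨1, 3, ?_, ?_⟩
      · ext <;> simp
      · ext
        · simp; linear_combination (-1 : K) * c5
        · simp)
  have f71 := hflip _ m7 _ m1 (by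
    intro h
    have h6 : ((1 : QuadraticAlgebra K 2 0), (0 : QuadraticAlgebra K 2 0)) ∈
        lineB (0 : QuadraticAlgebra K 2 0) ω ω := by
      rw [h]; exact ⟨1, 0, by simp, by simp⟩
    obtain ⟨c, d, h7, h8⟩ := h6
    have := congrArg QuadraticAlgebra.re h7
    simp at this)
    ((0 : QuadraticAlgebra K 2 0), (⟨1, 0⟩ : QuadraticAlgebra K 2 0))
    (by intro h; simpa using congrArg QuadraticAlgebra.re (Prod.ext_iff.mp h).2) (by
      refine ⟨0, 3, ?_, ?_⟩
      · simp
      · ext
        · simp; linear_combination (-1 : K) * c5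
        · simp) (by
      refine ⟨0, 1, ?_, ?_⟩
      · simp
      · ext <;> simp)
  tauto

/-- Existence of a complete partial packing of deficiency two, in the special model, together
with the existence of a packing. -/
lemma exists_model (hodd : Odd (Fintype.card K)) :
    ∃ E : K, (∃ P, IsCompletePartialPacking K
      (QuadraticAlgebra K E 0 × QuadraticAlgebra K E 0) P 2) ∧
      ∃ P0 : Set (Set (Submodule K (QuadraticAlgebra K E 0 × QuadraticAlgebra K E 0))),
        IsPack P0 := by
  classical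
  have h2 : (2 : K) ≠ 0 := by
    intro h
    have h3 : CharP K 2 := by
      refine CharTwo.of_one_ne_zero_of_two_eq_zero one_ne_zero h
    obtain ⟨n, hn⟩ := (FiniteField.card' K).imp fun p hp => hp
    obtain ⟨n, hp, hc⟩ := FiniteField.card K 2
    rw [hc] at hodd
    rw [Nat.odd_pow_iff n.ne_zero] at hodd
    exact absurd hodd (by decide)
  have hpk : ∀ E : K, ¬ IsSquare E →
      ∃ P0 : Set (Set (Submodule K (QuadraticAlgebra K E 0 × QuadraticAlgebra K E 0))),
        IsPack P0 := by
    intro E hE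
    have Hab : Fact (∀ r : K, r ^ 2 ≠ E + 0 * r) := by
      refine ⟨fun r hr => hE ⟨r, ?_⟩⟩
      rw [zero_mul, add_zero] at hr
      rw [← hr]; ring
    have hE0 : E ≠ 0 := fun h => hE (h ▸ IsSquare.zero)
    -- an element of nonsquare norm
    obtain ⟨x, y, hxy⟩ := FiniteField.exists_root_sum_quadratic (R := K)
      (f := Polynomial.X ^ 2) (g := -(Polynomial.C E * Polynomial.X ^ 2) - Polynomial.C E)
      (by rw [Polynomial.degree_X_pow]; rfl) (by
        have : (-(Polynomial.C E * Polynomial.X ^ 2) - Polynomial.C E : Polynomial K) =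
          Polynomial.C (-E) * Polynomial.X ^ 2 + Polynomial.C 0 * Polynomial.X +
            Polynomial.C (-E) := by
          simp only [Polynomial.C_neg, Polynomial.C_0]; ring
        rw [this]
        exact Polynomial.degree_quadratic (neg_ne_zero.mpr hE0)) (by
        rcases Nat.odd_iff.mp hodd with h
        exact h)
    simp at hxy
    refine ⟨_, isPack h2 (β := (⟨x, y⟩ : QuadraticAlgebra K E 0)) ?_⟩
    rw [norm_def]
    have : (x * x + 0 * x * y - E * y * y : K) = E := by linear_combination hxy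
    simp only
    rw [this]
    exact hE
  by_cases h5 : Fintype.card K = 5
  · obtain ⟨E, hE, hP⟩ := seven_cycle h5
    exact ⟨E, hP, hpk E hE⟩
  · have hpar : ∃ E f τ A B : K, ¬ IsSquare E ∧ f ≠ 0 ∧ τ ^ 2 = E * (1 + f ^ 2) ∧
        A ^ 2 = E * (1 + E * f ^ 2) ∧ B ^ 2 = E + f ^ 2 := by
      by_cases h1 : IsSquare (-1 : K)
      · apply params_of_neg_one_sq h1 _ h2
        have h3 := FiniteField.isSquare_neg_one_iff.mp h1
        have h4 : 1 < Fintype.card K := Fintype.one_lt_card
        obtain ⟨k, hk⟩ := hodd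
        omega
      · exact params_of_neg_one_nsq h1
    obtain ⟨E, f, τ, A, B, hE, hf, hτ, hA, hB⟩ := hpar
    exact ⟨E, five_cycle h2 hE hf hτ hA hB, hpk E hE⟩

end

end Pool.Agent.Lib.MP_9569f1_co
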