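import Mathlib

set_option autoImplicit false

namespace Pool.Agent.Lib.MP_9569f1_co

open Module

section Defs

variable (K : Type*) (V : Type*) [Field K] [Fintype K] [AddCommGroup V] [Module K V]

/-- A spread of the projective space of the vector space `V` (of vector space dimension `4`, over
the finite field `K` with `q` elements): a set of `q ^ 2 + 1` lines (that is, subspaces of
dimension `2`) which are pairwise skew. -/
structure IsSpread (S : Set (Submodule K V)) : Prop where
  line : ∀ l ∈ S, finrank K l = 2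
  skew : ∀ l ∈ S, ∀ m ∈ S, l ≠ m → l ⊓ m = ⊥
  ncard : S.ncard = Fintype.card K ^ 2 + 1

/-- A complete partial packing of deficiency `d`: a set of `q ^ 2 + q + 1 - d` pairwise disjoint
spreads such that no further spread is disjoint from all of them. -/
structure IsCompletePartialPacking (P : Set (Set (Submodule K V))) (d : ℕ) : Prop where
  spread : ∀ S ∈ P, IsSpread K V S
  disj : ∀ S ∈ P, ∀ T ∈ P, S ≠ T → Disjoint S T
  ncard : P.ncard + d = Fintype.card K ^ 2 + Fintype.card K + 1
  complete : ∀ T : Set (Submodule K V), IsSpread K V T → ∃ S ∈ P, ¬ Disjoint S T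

end Defs

section Partition

variable {K : Type*} {V : Type*} [Field K] [Fintype K] [AddCommGroup V] [Module K V]

/-- Partition form of the notion of a spread. -/
structure IsPart (S : Set (Submodule K V)) : Prop where
  line : ∀ l ∈ S, finrank K l = 2
  cover : ∀ p : V, p ≠ 0 → ∃ l ∈ S, p ∈ l
  uniq : ∀ p : V, p ≠ 0 → ∀ l ∈ S, ∀ m ∈ S, p ∈ l → p ∈ m → l = m

open Classical in
/-- the nonzero vectors of a line -/
noncomputable def nz [Fintype V] (l : Submodule K V) : Finset V :=
  Finset.univ.filter (fun p => p ∈ l ∧ p ≠ 0)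

lemma mem_nz [Fintype V] {l : Submodule K V} {p : V} : p ∈ nz l ↔ p ∈ l ∧ p ≠ 0 := by
  classical
  simp [nz]

lemma card_nz [Fintype V] {l : Submodule K V} (hl : finrank K l = 2) :
    (nz l).card = Fintype.card K ^ 2 - 1 := by
  classical
  have h1 : Fintype.card l = Fintype.card K ^ 2 := by
    rw [Module.card_eq_pow_finrank (K := K) (V := l), hl]
  have h2 : nz l = (Finset.univ.filter (fun p => p ∈ l)).erase 0 := by
    ext p; simp [mem_nz, and_comm]
  rw [h2, Finset.card_erase_of_mem (by simp)]
  congr 1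
  rw [← h1, Fintype.card_subtype]

lemma card_nz_univ [Fintype V] [DecidableEq V] (hV : finrank K V = 4) :
    ((Finset.univ : Finset V).erase 0).card = Fintype.card K ^ 4 - 1 := by
  rw [Finset.card_erase_of_mem (Finset.mem_univ _), Finset.card_univ,
    Module.card_eq_pow_finrank (K := K) (V := V), hV]

lemma IsSpread.isPart [FiniteDimensional K V] (hV : finrank K V = 4) {S : Set (Submodule K V)}
    (hS : IsSpread K V S) : IsPart S := by
  classical
  have : Finite V := Module.finite_of_finite K
  have : Fintype V := Fintype.ofFinite V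
  have hfin : Finite (Submodule K V) := inferInstance
  have hSfin : S.Finite := Set.toFinite S
  have huniq : ∀ p : V, p ≠ 0 → ∀ l ∈ S, ∀ m ∈ S, p ∈ l → p ∈ m → l = m := by
    intro p hp l hl m hm hpl hpm
    by_contra hne
    have := hS.skew l hl m hm hne
    have h2 : p ∈ l ⊓ m := ⟨hpl, hpm⟩
    rw [this] at h2
    exact hp ((Submodule.mem_bot K).mp h2)
  refine ⟨hS.line, ?_, huniq⟩
  have hcard : (hSfin.toFinset.biUnion nz).card = Fintype.card K ^ 4 - 1 := by
    rw [Finset.card_biUnion]
    · rw [Finset.sum_congr rfl (fun l hl => card_nz (hS.line l (hSfin.mem_toFinset.mp hl))),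
        Finset.sum_const, ← Set.ncard_eq_toFinset_card S hSfin, hS.ncard, smul_eq_mul]
      have hq : 1 ≤ Fintype.card K ^ 2 := Nat.one_le_pow _ _ Fintype.card_pos
      obtain ⟨c, hc⟩ := Nat.exists_eq_add_of_le hq
      have h4 : Fintype.card K ^ 4 = (Fintype.card K ^ 2) ^ 2 := by ring
      rw [h4, hc]
      have : (1 + c) ^ 2 = (1 + c + 1) * c + 1 := by ring
      rw [this]
      simp
    · intro l hl m hm hne
      rw [Finset.mem_coe, hSfin.mem_toFinset] at hl hm
      rw [Function.onFun, Finset.disjoint_left]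
      intro p hp hp'
      rw [mem_nz] at hp hp'
      exact hne (huniq p hp.2 l hl m hm hp.1 hp'.1)
  have hsub : hSfin.toFinset.biUnion nz ⊆ (Finset.univ : Finset V).erase 0 := by
    intro p hp
    rw [Finset.mem_biUnion] at hp
    obtain ⟨l, _, hp⟩ := hp
    rw [mem_nz] at hp
    simp [hp.2]
  have heq := Finset.eq_of_subset_of_card_le hsub (by rw [hcard, card_nz_univ hV])
  intro p hp
  have : p ∈ hSfin.toFinset.biUnion nz := by rw [heq]; simp [hp]
  rw [Finset.mem_biUnion] at this
  obtain ⟨l, hl, hpl⟩ := this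
  exact ⟨l, hSfin.mem_toFinset.mp hl, (mem_nz.mp hpl).1⟩

lemma IsPart.isSpread [FiniteDimensional K V] (hV : finrank K V = 4) {S : Set (Submodule K V)}
    (hS : IsPart S) : IsSpread K V S := by
  classical
  have : Finite V := Module.finite_of_finite K
  have : Fintype V := Fintype.ofFinite V
  have hfin : Finite (Submodule K V) := inferInstance
  have hSfin : S.Finite := Set.toFinite S
  refine ⟨hS.line, ?_, ?_⟩
  · intro l hl m hm hne
    rw [eq_bot_iff]
    intro p hp
    rw [Submodule.mem_bot]
    by_contra hp0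
    exact hne (hS.uniq p hp0 l hl m hm hp.1 hp.2)
  · have hcard : (hSfin.toFinset.biUnion nz).card = S.ncard * (Fintype.card K ^ 2 - 1) := by
      rw [Finset.card_biUnion]
      · rw [Finset.sum_congr rfl (fun l hl => card_nz (hS.line l (hSfin.mem_toFinset.mp hl))),
          Finset.sum_const, ← Set.ncard_eq_toFinset_card S hSfin, smul_eq_mul]
      · intro l hl m hm hne
        rw [Finset.mem_coe, hSfin.mem_toFinset] at hl hm
        rw [Function.onFun, Finset.disjoint_left]
        intro p hp hp'
        rw [mem_nz] at hp hp'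
        exact hne (hS.uniq p hp.2 l hl m hm hp.1 hp'.1)
    have heq : hSfin.toFinset.biUnion nz = (Finset.univ : Finset V).erase 0 := by
      ext p
      rw [Finset.mem_biUnion]
      constructor
      · rintro ⟨l, _, hp⟩
        rw [mem_nz] at hp
        simp [hp.2]
      · intro hp
        have hp0 : p ≠ 0 := (Finset.mem_erase.mp hp).1
        obtain ⟨l, hl, hpl⟩ := hS.cover p hp0
        exact ⟨l, hSfin.mem_toFinset.mpr hl, mem_nz.mpr ⟨hpl, hp0⟩⟩
    rw [heq, card_nz_univ hV] at hcard
    have hq2 : 2 ≤ Fintype.card K := Fintype.one_lt_card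
    have hq : 4 ≤ Fintype.card K ^ 2 := by nlinarith
    obtain ⟨c, hc⟩ := Nat.exists_eq_add_of_le hq
    have h4 : Fintype.card K ^ 4 = (Fintype.card K ^ 2) ^ 2 := by ring
    rw [h4, hc] at hcard
    rw [hc]
    have h5 : (4 + c) ^ 2 - 1 = (4 + c + 1) * (c + 3) := by
      have : (4 + c) ^ 2 = (4 + c + 1) * (c + 3) + 1 := by ring
      rw [this]; simp
    have h6 : 4 + c - 1 = c + 3 := by omega
    rw [h5, h6] at hcard
    exact (Nat.eq_of_mul_eq_mul_right (by omega) hcard).symm

/-- Sanity check: a spread is the same as a set of lines such that each point is on exactly one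
of them. -/
lemma isSpread_iff [FiniteDimensional K V] (hV : finrank K V = 4) (S : Set (Submodule K V)) :
    IsSpread K V S ↔ (∀ l ∈ S, finrank K l = 2) ∧ ∀ p : V, p ≠ 0 → ∃! l, l ∈ S ∧ p ∈ l := by
  constructor
  · intro h
    have h' := h.isPart hV
    refine ⟨h.line, fun p hp => ?_⟩
    obtain ⟨l, hl, hpl⟩ := h'.cover p hp
    exact ⟨l, ⟨hl, hpl⟩, fun m hm => h'.uniq p hp m hm.1 l hl hm.2 hpl⟩
  · rintro ⟨h1, h2⟩
    refine IsPart.isSpread hV ⟨h1, ?_, ?_⟩
    · intro p hp
      obtain ⟨l, hl, _⟩ := h2 p hp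
      exact ⟨l, hl.1, hl.2⟩
    · intro p hp l hl m hm hpl hpm
      exact (h2 p hp).unique ⟨hl, hpl⟩ ⟨hm, hpm⟩

lemma IsPart.nonempty [Nontrivial V] {S : Set (Submodule K V)} (hS : IsPart S) : S.Nonempty := by
  obtain ⟨p, hp⟩ := exists_ne (0 : V)
  obtain ⟨l, hl, _⟩ := hS.cover p hp
  exact ⟨l, hl⟩

end Partition

/-! ### Transport along linear equivalences -/

section Transport

variable {K : Type*} {V W : Type*} [Field K] [Fintype K] [AddCommGroup V] [Module K V]
  [AddCommGroup W] [Module K W]

/-- the order isomorphism of the subspace lattices -/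
def smap (e : V ≃ₗ[K] W) : Submodule K V ≃o Submodule K W := Submodule.orderIsoMapComap e

lemma smap_apply (e : V ≃ₗ[K] W) (l : Submodule K V) : smap e l = l.map (e : V →ₗ[K] W) := rfl

lemma finrank_smap (e : V ≃ₗ[K] W) (l : Submodule K V) : finrank K (smap e l) = finrank K l := by
  rw [smap_apply]
  exact LinearEquiv.finrank_map_eq e l

lemma IsSpread.image (e : V ≃ₗ[K] W) {S : Set (Submodule K V)} (hS : IsSpread K V S) :
    IsSpread K W (smap e '' S) := by
  refine ⟨?_, ?_, ?_⟩
  · rintro _ ⟨l, hl, rfl⟩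
    rw [finrank_smap]; exact hS.line l hl
  · rintro _ ⟨l, hl, rfl⟩ _ ⟨m, hm, rfl⟩ hne
    have : l ≠ m := fun h => hne (by rw [h])
    rw [← (smap e).map_inf, hS.skew l hl m hm this, (smap e).map_bot]
  · rw [Set.ncard_image_of_injective _ (smap e).injective, hS.ncard]

lemma IsCompletePartialPacking.image (e : V ≃ₗ[K] W) {P : Set (Set (Submodule K V))} {d : ℕ}
    (hP : IsCompletePartialPacking K V P d) :
    IsCompletePartialPacking K W ((fun S => smap e '' S) '' P) d := by
  have hinj : Function.Injective (fun S : Set (Submodule K V) => smap e '' S) :=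
    Set.image_injective.mpr (smap e).injective
  refine ⟨?_, ?_, ?_, ?_⟩
  · rintro _ ⟨S, hS, rfl⟩
    exact (hP.spread S hS).image e
  · rintro _ ⟨S, hS, rfl⟩ _ ⟨T, hT, rfl⟩ hne
    have : S ≠ T := fun h => hne (by rw [h])
    exact (Set.disjoint_image_iff (smap e).injective).mpr (hP.disj S hS T hT this)
  · rw [Set.ncard_image_of_injective _ hinj, hP.ncard]
  · intro T hT
    have hT' := hT.image e.symm
    obtain ⟨S, hS, hST⟩ := hP.complete _ hT'
    refine ⟨_, ⟨S, hS, rfl⟩, ?_⟩
    intro hdis
    apply hST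
    rw [Set.disjoint_left] at hdis ⊢
    rintro l hl ⟨m, hm, hml⟩
    apply hdis ⟨l, hl, rfl⟩
    have : smap e l = m := by
      rw [← hml]
      ext x
      simp [smap_apply]
    rw [this]; exact hm

end Transport

end Pool.Agent.Lib.MP_9569f1_co
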