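import Pool.Agent.Lib.MP_9569f1_co.Defs

set_option autoImplicit false

namespace Pool.Agent.Lib.MP_9569f1_co

open Module QuadraticAlgebra

section

variable {K : Type*} [Field K] {E : K}

/-- The line with equation `Y = α X + γ (star X)`. -/
def lineG (α γ : QuadraticAlgebra K E 0) :
    Submodule K (QuadraticAlgebra K E 0 × QuadraticAlgebra K E 0) where
  carrier := {p | p.2 = α * p.1 + γ * star p.1}
  add_mem' := by
    rintro p q hp hq
    simp only [Set.mem_ofPred_eq, Prod.snd_add, Prod.fst_add, star_add] at *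
    rw [hp, hq]; ring
  zero_mem' := by simp
  smul_mem' := by
    rintro c p hp
    simp only [Set.mem_ofPred_eq, Prod.smul_fst, Prod.smul_snd] at *
    rw [hp]
    ext <;> simp <;> ring

lemma mem_lineG {α γ : QuadraticAlgebra K E 0}
    {p : QuadraticAlgebra K E 0 × QuadraticAlgebra K E 0} :
    p ∈ lineG α γ ↔ p.2 = α * p.1 + γ * star p.1 := Iff.rfl

/-- The line `X = 0`. -/
def lineInf : Submodule K (QuadraticAlgebra K E 0 × QuadraticAlgebra K E 0) where
  carrier := {p | p.1 = 0}
  add_mem' := by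
    rintro p q hp hq
    simp only [Set.mem_ofPred_eq, Prod.fst_add] at *
    rw [hp, hq]; simp
  zero_mem' := by simp
  smul_mem' := by
    rintro c p hp
    simp only [Set.mem_ofPred_eq, Prod.smul_fst] at *
    rw [hp]; simp

lemma mem_lineInf {p : QuadraticAlgebra K E 0 × QuadraticAlgebra K E 0} :
    p ∈ (lineInf : Submodule K (QuadraticAlgebra K E 0 × QuadraticAlgebra K E 0)) ↔ p.1 = 0 :=
  Iff.rfl

/-- The line spanned by `(x, u x)` and `(0, v x)`. -/
def lineB (u v x : QuadraticAlgebra K E 0) :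
    Submodule K (QuadraticAlgebra K E 0 × QuadraticAlgebra K E 0) where
  carrier := {p | ∃ a b : K, p.1 = a • x ∧ p.2 = a • (u * x) + b • (v * x)}
  add_mem' := by
    rintro p q ⟨a, b, h1, h2⟩ ⟨a', b', h1', h2'⟩
    refine ⟨a + a', b + b', ?_, ?_⟩
    · rw [Prod.fst_add, h1, h1', add_smul]
    · rw [Prod.snd_add, h2, h2']; module
  zero_mem' := ⟨0, 0, by simp, by simp⟩
  smul_mem' := by
    rintro c p ⟨a, b, h1, h2⟩
    refine ⟨c * a, c * b, ?_, ?_⟩
    · rw [Prod.smul_fst, h1, mul_smul]
    · rw [Prod.smul_snd, h2]; module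

lemma mem_lineB {u v x : QuadraticAlgebra K E 0}
    {p : QuadraticAlgebra K E 0 × QuadraticAlgebra K E 0} :
    p ∈ lineB u v x ↔ ∃ a b : K, p.1 = a • x ∧ p.2 = a • (u * x) + b • (v * x) := Iff.rfl

lemma finrank_lineG (α γ : QuadraticAlgebra K E 0) : finrank K (lineG α γ) = 2 := by
  let T : QuadraticAlgebra K E 0 →ₗ[K] QuadraticAlgebra K E 0 × QuadraticAlgebra K E 0 :=
    { toFun := fun X => (X, α * X + γ * star X)
      map_add' := by
        intro X Y
        ext <;> simp <;> ring
      map_smul' := by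
        intro c X
        ext <;> simp <;> ring }
  have hinj : Function.Injective T := fun X Y h => (Prod.ext_iff.mp h).1
  have hr : LinearMap.range T = lineG α γ := by
    ext p
    rw [LinearMap.mem_range, mem_lineG]
    constructor
    · rintro ⟨X, rfl⟩; rfl
    · intro h
      exact ⟨p.1, Prod.ext rfl h.symm⟩
  rw [← hr, LinearMap.finrank_range_of_inj hinj, QuadraticAlgebra.finrank_eq_two]

lemma finrank_lineInf : finrank K
    (lineInf : Submodule K (QuadraticAlgebra K E 0 × QuadraticAlgebra K E 0)) = 2 := by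
  have hinj : Function.Injective
    (LinearMap.inr K (QuadraticAlgebra K E 0) (QuadraticAlgebra K E 0)) := LinearMap.inr_injective
  have hr : LinearMap.range (LinearMap.inr K (QuadraticAlgebra K E 0) (QuadraticAlgebra K E 0))
      = lineInf := by
    ext p
    rw [LinearMap.mem_range, mem_lineInf]
    constructor
    · rintro ⟨X, rfl⟩; rfl
    · intro h
      exact ⟨p.2, Prod.ext h.symm rfl⟩
  rw [← hr, LinearMap.finrank_range_of_inj hinj, QuadraticAlgebra.finrank_eq_two]

lemma finrank_V :
    finrank K (QuadraticAlgebra K E 0 × QuadraticAlgebra K E 0) = 4 := by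
  rw [finrank_prod, QuadraticAlgebra.finrank_eq_two]

variable [Hab : Fact (∀ r : K, r ^ 2 ≠ E + 0 * r)]

lemma norm_smul' (a : K) (x : QuadraticAlgebra K E 0) : norm (a • x) = a ^ 2 * norm x := by
  simp [norm_def]; ring

lemma finrank_lineB (u : QuadraticAlgebra K E 0) {v x : QuadraticAlgebra K E 0} (hv : v ≠ 0)
    (hx : x ≠ 0) : finrank K (lineB u v x) = 2 := by
  let T : K × K →ₗ[K] QuadraticAlgebra K E 0 × QuadraticAlgebra K E 0 :=
    { toFun := fun c => (c.1 • x, c.1 • (u * x) + c.2 • (v * x))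
      map_add' := by
        intro X Y
        ext <;> simp <;> ring
      map_smul' := by
        intro c X
        ext <;> simp <;> ring }
  have hinj : Function.Injective T := by
    rw [← LinearMap.ker_eq_bot, LinearMap.ker_eq_bot']
    rintro ⟨a, b⟩ h
    have h1 : a • x = 0 := (Prod.ext_iff.mp h).1
    have h2 : a • (u * x) + b • (v * x) = 0 := (Prod.ext_iff.mp h).2
    have ha : a = 0 := by
      rcases smul_eq_zero.mp h1 with h | h
      · exact h
      · exact absurd h hx
    rw [ha, zero_smul, zero_add] at h2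
    have hb : b = 0 := by
      rcases smul_eq_zero.mp h2 with h | h
      · exact h
      · exact absurd h (mul_ne_zero hv hx)
    rw [ha, hb]; rfl
  have hr : LinearMap.range T = lineB u v x := by
    ext p
    rw [LinearMap.mem_range, mem_lineB]
    constructor
    · rintro ⟨c, rfl⟩; exact ⟨c.1, c.2, rfl, rfl⟩
    · rintro ⟨a, b, h1, h2⟩
      exact ⟨(a, b), Prod.ext h1.symm h2.symm⟩
  rw [← hr, LinearMap.finrank_range_of_inj hinj]
  simp

lemma decomp_zero {β X : QuadraticAlgebra K E 0} (hβ : ¬ IsSquare (norm β)) (hX : X ≠ 0) {m a : K}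
    (h : m • X + a • (β * star X) = 0) : m = 0 ∧ a = 0 := by
  have h1 : m • X = (-a) • (β * star X) := by
    rw [neg_smul]; exact eq_neg_of_add_eq_zero_left h
  have h2 := congrArg QuadraticAlgebra.norm h1
  rw [norm_smul', norm_smul', map_mul, QuadraticAlgebra.norm_star] at h2
  have hN : norm X ≠ 0 := fun h => hX (norm_eq_zero_iff_eq_zero.mp h)
  have h3 : m ^ 2 = a ^ 2 * norm β := by
    apply mul_right_cancel₀ hN
    rw [h2]; ring
  have ha : a = 0 := by
    by_contra ha
    apply hβ
    refine ⟨m / a, ?_⟩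
    field_simp
    rw [h3]; ring
  rw [ha] at h3
  have hm : m = 0 := by
    have : m ^ 2 = 0 := by rw [h3]; ring
    exact pow_eq_zero_iff (n := 2) (by norm_num) |>.mp this
  exact ⟨hm, ha⟩

lemma decomp_uniq {β X : QuadraticAlgebra K E 0} (hβ : ¬ IsSquare (norm β)) (hX : X ≠ 0)
    {m a m' a' : K}
    (h : m • X + a • (β * star X) = m' • X + a' • (β * star X)) : m = m' ∧ a = a' := by
  have h1 : (m - m') • X + (a - a') • (β * star X) = 0 := by
    rw [sub_smul, sub_smul]
    linear_combination (exp := 1) h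
  obtain ⟨h2, h3⟩ := decomp_zero hβ hX h1
  exact ⟨sub_eq_zero.mp h2, sub_eq_zero.mp h3⟩

lemma decomp_exists {β X : QuadraticAlgebra K E 0} (hβ : ¬ IsSquare (norm β)) (hX : X ≠ 0)
    (Y : QuadraticAlgebra K E 0) : ∃ m a : K, Y = m • X + a • (β * star X) := by
  let T : K × K →ₗ[K] QuadraticAlgebra K E 0 :=
    { toFun := fun c => c.1 • X + c.2 • (β * star X)
      map_add' := by
        intro X Y
        ext <;> simp <;> ring
      map_smul' := by
        intro c X
        ext <;> simp <;> ring }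
  have hinj : Function.Injective T := by
    rintro ⟨a, b⟩ ⟨a', b'⟩ h
    obtain ⟨h1, h2⟩ := decomp_uniq (m := a) (a := b) (m' := a') (a' := b') hβ hX h
    rw [h1, h2]
  have hsurj : Function.Surjective T := by
    rw [← LinearMap.injective_iff_surjective_of_finrank_eq_finrank]
    · exact hinj
    · rw [QuadraticAlgebra.finrank_eq_two]; simp
  obtain ⟨c, hc⟩ := hsurj Y
  exact ⟨c.1, c.2, hc.symm⟩

lemma lineG_inj (h2 : (2 : K) ≠ 0) {α γ α' γ' : QuadraticAlgebra K E 0}
    (h : lineG α γ = lineG α' γ') : α = α' ∧ γ = γ' := by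
  have h1 : ((1 : QuadraticAlgebra K E 0), α * 1 + γ * star 1) ∈ lineG α' γ' := by
    rw [← h]; rfl
  have h3 : ((ω : QuadraticAlgebra K E 0), α * ω + γ * star ω) ∈ lineG α' γ' := by
    rw [← h]; rfl
  rw [mem_lineG] at h1 h3
  have e1 := congrArg QuadraticAlgebra.re h1
  have e2 := congrArg QuadraticAlgebra.im h1
  have e3 := congrArg QuadraticAlgebra.re h3
  have e4 := congrArg QuadraticAlgebra.im h3
  have hE : E ≠ 0 := by
    intro h0
    have := Hab.out 0
    simp [h0] at this
  simp at e1 e2 e3 e4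
  have e3' : E * (α.im - γ.im) = E * (α'.im - γ'.im) := by linear_combination e3
  have e3'' := mul_left_cancel₀ hE e3'
  have f1 : (2 : K) * α.re = 2 * α'.re := by linear_combination e1 + e4
  have f2 : (2 : K) * γ.re = 2 * γ'.re := by linear_combination e1 - e4
  have f3 : (2 : K) * α.im = 2 * α'.im := by linear_combination e2 + e3''
  have f4 : (2 : K) * γ.im = 2 * γ'.im := by linear_combination e2 - e3''
  exact ⟨QuadraticAlgebra.ext (mul_left_cancel₀ h2 f1) (mul_left_cancel₀ h2 f3),
    QuadraticAlgebra.ext (mul_left_cancel₀ h2 f2) (mul_left_cancel₀ h2 f4)⟩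

lemma lineG_ne_lineInf (α γ : QuadraticAlgebra K E 0) : lineG α γ ≠ lineInf := by
  intro h
  have h1 : ((1 : QuadraticAlgebra K E 0), α * 1 + γ * star 1) ∈
      (lineInf : Submodule K (QuadraticAlgebra K E 0 × QuadraticAlgebra K E 0)) := by
    rw [← h]; rfl
  rw [mem_lineInf] at h1
  exact one_ne_zero h1

lemma lineG_ne_lineB (α γ u : QuadraticAlgebra K E 0) {v x : QuadraticAlgebra K E 0} (hv : v ≠ 0)
    (hx : x ≠ 0) : lineG α γ ≠ lineB u v x := by
  intro h
  have h1 : ((0 : QuadraticAlgebra K E 0), v * x) ∈ lineG α γ := by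
    rw [h]; exact ⟨0, 1, by simp, by simp⟩
  rw [mem_lineG] at h1
  simp at h1
  rcases h1 with h1 | h1
  · exact hv h1
  · exact hx h1

lemma lineB_ne_lineInf (u v : QuadraticAlgebra K E 0) {x : QuadraticAlgebra K E 0}
    (hx : x ≠ 0) : lineB u v x ≠ lineInf := by
  intro h
  have h1 : (x, u * x) ∈
      (lineInf : Submodule K (QuadraticAlgebra K E 0 × QuadraticAlgebra K E 0)) := by
    rw [← h]; exact ⟨1, 0, by simp, by simp⟩
  rw [mem_lineInf] at h1
  exact hx h1

end

end Pool.Agent.Lib.MP_9569f1_co
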