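import Pool.Agent.Lib.MP_9569f1_co.Spreads

set_option autoImplicit false

namespace Pool.Agent.Lib.MP_9569f1_co

open Module QuadraticAlgebra

section

variable {K : Type*} [Field K] {E : K} [Hab : Fact (∀ r : K, r ^ 2 ≠ E + 0 * r)]

lemma mem_mix1 {β X Y : QuadraticAlgebra K E 0} {m a : K} :
    (X, Y) ∈ lineG (m • (1 : QuadraticAlgebra K E 0)) (a • β) ↔
      Y = m • X + a • (β * star X) := by
  rw [mem_lineG]
  simp only [Algebra.smul_def, mul_one]
  rw [mul_assoc]

lemma mem_mix2 {β X Y : QuadraticAlgebra K E 0} {s t : K} :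
    (X, Y) ∈ lineG (s • (ω : QuadraticAlgebra K E 0)) (t • (ω * β)) ↔
      Y / ω = s • X + t • (β * star X) := by
  have hω := omega_ne_zero (K := K) (E := E)
  rw [mem_lineG, div_eq_iff hω]
  simp only [Algebra.smul_def]
  constructor
  · intro h; rw [h]; ring
  · intro h; rw [h]; ring

lemma mix_value {β X Y : QuadraticAlgebra K E 0} (hX : X ≠ 0) {m a s t : K}
    (h1 : Y = m • X + a • (β * star X)) (h2 : Y / ω = s • X + t • (β * star X)) :
    m ^ 2 - QuadraticAlgebra.norm β * a ^ 2 = E * (s ^ 2 - QuadraticAlgebra.norm β * t ^ 2) := by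
  have hω := omega_ne_zero (K := K) (E := E)
  rw [div_eq_iff hω] at h2
  have h3 : (⟨m, -s⟩ : QuadraticAlgebra K E 0) * X = ⟨-a, t⟩ * (β * star X) := by
    have e1 : (⟨m, -s⟩ : QuadraticAlgebra K E 0) = m • (1 : QuadraticAlgebra K E 0) - s • ω := by
      ext <;> simp
    have e2 : (⟨-a, t⟩ : QuadraticAlgebra K E 0) = t • ω - a • (1 : QuadraticAlgebra K E 0) := by
      ext <;> simp
    rw [e1, e2]
    rw [h1] at h2
    simp only [Algebra.smul_def, mul_one] at h2 ⊢
    linear_combination h2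
  have h4 := congrArg QuadraticAlgebra.norm h3
  rw [map_mul, map_mul, map_mul, QuadraticAlgebra.norm_star] at h4
  have hN : QuadraticAlgebra.norm X ≠ 0 := fun h => hX (norm_eq_zero_iff_eq_zero.mp h)
  have e3 : QuadraticAlgebra.norm (⟨m, -s⟩ : QuadraticAlgebra K E 0) = m ^ 2 - E * s ^ 2 := by
    simp [norm_def]; ring
  have e4 : QuadraticAlgebra.norm (⟨-a, t⟩ : QuadraticAlgebra K E 0) = a ^ 2 - E * t ^ 2 := by
    simp [norm_def]; ring
  rw [e3, e4] at h4
  have h5 : m ^ 2 - E * s ^ 2 = (a ^ 2 - E * t ^ 2) * QuadraticAlgebra.norm β := by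
    apply mul_right_cancel₀ hN
    rw [h4]; ring
  linear_combination h5

lemma Mix_isPart {β : QuadraticAlgebra K E 0} (hβ : ¬ IsSquare (QuadraticAlgebra.norm β))
    (I : Set K) : IsPart (Mix β I) := by
  refine ⟨?_, ?_, ?_⟩
  · rintro l (rfl | ⟨m, a, _, rfl⟩ | ⟨m, a, _, rfl⟩)
    · exact finrank_lineInf
    · exact finrank_lineG _ _
    · exact finrank_lineG _ _
  · rintro ⟨X, Y⟩ hp
    by_cases hX : X = 0
    · exact ⟨lineInf, Or.inl rfl, hX⟩
    · obtain ⟨m, a, h1⟩ := decomp_exists hβ hX Y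
      obtain ⟨s, t, h2⟩ := decomp_exists hβ hX (Y / ω)
      have h3 := mix_value hX h1 h2
      by_cases hI : m ^ 2 - QuadraticAlgebra.norm β * a ^ 2 ∈ I
      · exact ⟨_, Or.inr (Or.inl ⟨m, a, hI, rfl⟩), mem_mix1.mpr h1⟩
      · exact ⟨_, Or.inr (Or.inr ⟨s, t, by rw [← h3]; exact hI, rfl⟩), mem_mix2.mpr h2⟩
  · rintro ⟨X, Y⟩ hp l hl l' hl' h1 h2
    by_cases hX : X = 0
    · have hY : Y ≠ 0 := fun h => hp (by rw [hX, h]; rfl)
      have key : ∀ l ∈ Mix β I, (X, Y) ∈ l → l = lineInf := by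
        rintro l (rfl | ⟨m, a, _, rfl⟩ | ⟨m, a, _, rfl⟩) h
        · rfl
        · rw [mem_mix1, hX] at h
          simp at h
          exact absurd h hY
        · rw [mem_lineG] at h
          simp only [hX] at h
          simp at h
          exact absurd h hY
      rw [key l hl h1, key l' hl' h2]
    · rcases hl with rfl | ⟨m, a, hI, rfl⟩ | ⟨m, a, hI, rfl⟩
      · exact absurd h1 hX
      · rcases hl' with rfl | ⟨m', a', hI', rfl⟩ | ⟨m', a', hI', rfl⟩
        · exact absurd h2 hX
        · rw [mem_mix1] at h1 h2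
          obtain ⟨e1, e2⟩ := decomp_uniq hβ hX (h1.symm.trans h2)
          rw [e1, e2]
        · rw [mem_mix1] at h1
          rw [mem_mix2] at h2
          rw [mix_value hX h1 h2] at hI
          exact absurd hI hI'
      · rcases hl' with rfl | ⟨m', a', hI', rfl⟩ | ⟨m', a', hI', rfl⟩
        · exact absurd h2 hX
        · rw [mem_mix2] at h1
          rw [mem_mix1] at h2
          rw [mix_value hX h2 h1] at hI'
          exact absurd hI' hI
        · rw [mem_mix2] at h1 h2
          obtain ⟨e1, e2⟩ := decomp_uniq hβ hX (h1.symm.trans h2)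
          rw [e1, e2]

/-- The mixed spread is contained in the union of three spreads of the packing. -/
lemma Mix_subset (β : QuadraticAlgebra K E 0) (I : Set K) :
    Mix β I ⊆ Sig ∪ (Spr β 0 1 ∪ Spr β 0 ω) := by
  rintro l (rfl | ⟨m, a, _, rfl⟩ | ⟨m, a, _, rfl⟩)
  · exact Or.inl (Or.inl rfl)
  · by_cases ha : a = 0
    · left; right
      exact ⟨_, by rw [ha, zero_smul]⟩
    · right; left; left
      refine ⟨m, a, ha, ?_⟩
      rw [zero_add, one_mul]
  · by_cases ha : a = 0
    · left; right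
      exact ⟨_, by rw [ha, zero_smul]⟩
    · right; right; left
      refine ⟨m, a, ha, ?_⟩
      rw [zero_add]

/-- The set of Hall spreads of the packing. -/
def HallSet (β : QuadraticAlgebra K E 0) :
    Set (Set (Submodule K (QuadraticAlgebra K E 0 × QuadraticAlgebra K E 0))) :=
  {S | ∃ u v : QuadraticAlgebra K E 0, v ≠ 0 ∧ S = Spr β u v}

lemma lineB_mem (β u v : QuadraticAlgebra K E 0) : lineB u v 1 ∈ Spr β u v :=
  Or.inr ⟨1, one_ne_zero, rfl⟩

lemma Spr_eq_or_disjoint (h2 : (2 : K) ≠ 0) {β : QuadraticAlgebra K E 0} (hβ0 : β ≠ 0)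
    {u u' v v' : QuadraticAlgebra K E 0} (hv : v ≠ 0) (hv' : v' ≠ 0)
    (hne : Spr β u v ≠ Spr β u' v') : Disjoint (Spr β u v) (Spr β u' v') := by
  rw [Set.disjoint_left]
  intro l hl hl'
  obtain ⟨k, k', hk', rfl, rfl⟩ := Spr_inter h2 hβ0 hv hv' hl hl'
  exact hne (Spr_congr k hk').symm

open Classical in
lemma card_HallSet [Fintype K] (h2 : (2 : K) ≠ 0) {β : QuadraticAlgebra K E 0} (hβ0 : β ≠ 0) :
    (HallSet β).ncard = Fintype.card K ^ 2 + Fintype.card K := by
  have : Fintype (QuadraticAlgebra K E 0) := Fintype.ofEquiv _ (equivProd E 0).symm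
  have hF : Fintype.card (QuadraticAlgebra K E 0) = Fintype.card K ^ 2 := by
    rw [Module.card_eq_pow_finrank (K := K) (V := QuadraticAlgebra K E 0),
      QuadraticAlgebra.finrank_eq_two]
  set D : Finset (QuadraticAlgebra K E 0 × QuadraticAlgebra K E 0) :=
    Finset.univ ×ˢ (Finset.univ.erase 0) with hD
  have memD : ∀ p, p ∈ D ↔ p.2 ≠ 0 := fun p => by simp [hD]
  have hDcard : D.card = Fintype.card K ^ 2 * (Fintype.card K ^ 2 - 1) := by
    rw [hD, Finset.card_product, Finset.card_erase_of_mem (Finset.mem_univ _), Finset.card_univ, hF]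
  set Φ : QuadraticAlgebra K E 0 × QuadraticAlgebra K E 0 →
    Set (Submodule K (QuadraticAlgebra K E 0 × QuadraticAlgebra K E 0)) :=
    fun p => Spr β p.1 p.2 with hΦ
  have himg : HallSet β = (D.image Φ : Set _) := by
    ext S
    simp only [HallSet, Set.mem_ofPred_eq, Finset.coe_image, Set.mem_image, Finset.mem_coe, memD]
    constructor
    · rintro ⟨u, v, hv, rfl⟩; exact ⟨(u, v), hv, rfl⟩
    · rintro ⟨p, hp, rfl⟩; exact ⟨p.1, p.2, hp, rfl⟩
  rw [himg, Set.ncard_coe_finset]
  have hfib : ∀ S ∈ D.image Φ, (D.filter (fun p => Φ p = S)).card =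
      Fintype.card K * (Fintype.card K - 1) := by
    intro S hS
    rw [Finset.mem_image] at hS
    obtain ⟨⟨u, v⟩, hp, rfl⟩ := hS
    have hv : v ≠ 0 := (memD _).mp hp
    have heq : D.filter (fun p => Φ p = Φ (u, v)) =
        ((Finset.univ : Finset K) ×ˢ ((Finset.univ : Finset K).erase 0)).image
          (fun c => (u + c.1 • v, c.2 • v)) := by
      ext ⟨u', v'⟩
      simp only [Finset.mem_filter, memD, Finset.mem_image, Finset.mem_product, Finset.mem_univ,
        Finset.mem_erase, true_and, and_true, hΦ]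
      constructor
      · rintro ⟨hv', h⟩
        have h3 : lineB u v 1 ∈ Spr β u' v' := by rw [h]; exact lineB_mem β u v
        obtain ⟨k, k', hk', e1, e2⟩ := Spr_inter h2 hβ0 hv hv' (lineB_mem β u v) h3
        exact ⟨(k, k'), hk', by rw [e1, e2]⟩
      · rintro ⟨⟨k, k'⟩, hk', h⟩
        simp only [Prod.mk.injEq] at h
        obtain ⟨rfl, rfl⟩ := h
        exact ⟨smul_ne_zero hk' hv, Spr_congr k hk'⟩
    rw [heq, Finset.card_image_of_injective, Finset.card_product,
      Finset.card_erase_of_mem (Finset.mem_univ _), Finset.card_univ]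
    rintro ⟨a, b⟩ ⟨a', b'⟩ h
    simp only [Prod.mk.injEq] at h
    have e1 : a = a' := by
      have := add_left_cancel h.1
      exact smul_left_injective K hv this
    have e2 : b = b' := smul_left_injective K hv h.2
    rw [e1, e2]
  have hsum := Finset.card_eq_sum_card_image Φ D
  rw [Finset.sum_congr rfl hfib, Finset.sum_const, smul_eq_mul, hDcard] at hsum
  have hq2 : 2 ≤ Fintype.card K := Fintype.one_lt_card
  obtain ⟨c, hc⟩ := Nat.exists_eq_add_of_le hq2
  rw [hc] at hsum ⊢
  have e1 : (2 + c) ^ 2 - 1 = (c + 1) * (c + 3) := by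
    have : (2 + c) ^ 2 = (c + 1) * (c + 3) + 1 := by ring
    rw [this]; simp
  have e2 : 2 + c - 1 = c + 1 := by omega
  rw [e1, e2] at hsum
  have hpos : 0 < (2 + c) * (c + 1) := by positivity
  apply Nat.eq_of_mul_eq_mul_right hpos
  rw [← hsum]; ring

end

end Pool.Agent.Lib.MP_9569f1_co
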