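import Pool.Agent.Lib.MP_9569f1_co.Lines

set_option autoImplicit false

namespace Pool.Agent.Lib.MP_9569f1_co

open Module QuadraticAlgebra

section

variable {K : Type*} [Field K] {E : K}

/-- The regular spread `Σ`. -/
def Sig : Set (Submodule K (QuadraticAlgebra K E 0 × QuadraticAlgebra K E 0)) :=
  {l | l = lineInf ∨ ∃ α : QuadraticAlgebra K E 0, l = lineG α 0}

/-- The Hall spreads of the packing. -/
def Spr (β u v : QuadraticAlgebra K E 0) :
    Set (Submodule K (QuadraticAlgebra K E 0 × QuadraticAlgebra K E 0)) :=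
  {l | (∃ m a : K, a ≠ 0 ∧ l = lineG (u + m • v) (a • (v * β))) ∨
    ∃ x : QuadraticAlgebra K E 0, x ≠ 0 ∧ l = lineB u v x}

/-- The mixed spread, depending on a set `I` of field elements. -/
def Mix (β : QuadraticAlgebra K E 0) (I : Set K) :
    Set (Submodule K (QuadraticAlgebra K E 0 × QuadraticAlgebra K E 0)) :=
  {l | l = lineInf ∨
    (∃ m a : K, m ^ 2 - QuadraticAlgebra.norm β * a ^ 2 ∈ I ∧
      l = lineG (m • (1 : QuadraticAlgebra K E 0)) (a • β)) ∨
    ∃ s t : K, E * (s ^ 2 - QuadraticAlgebra.norm β * t ^ 2) ∉ I ∧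
      l = lineG (s • (ω : QuadraticAlgebra K E 0)) (t • (ω * β))}

variable [Hab : Fact (∀ r : K, r ^ 2 ≠ E + 0 * r)]

lemma E_ne_zero : E ≠ 0 := by
  intro h0
  have := Hab.out 0
  simp [h0] at this

lemma omega_ne_zero : (ω : QuadraticAlgebra K E 0) ≠ 0 := by
  intro h
  have := congrArg QuadraticAlgebra.im h
  simp at this

lemma Sig_isPart : IsPart (Sig : Set (Submodule K
    (QuadraticAlgebra K E 0 × QuadraticAlgebra K E 0))) := by
  refine ⟨?_, ?_, ?_⟩
  · rintro l (rfl | ⟨α, rfl⟩)
    · exact finrank_lineInf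
    · exact finrank_lineG _ _
  · rintro ⟨X, Y⟩ hp
    by_cases hX : X = 0
    · exact ⟨lineInf, Or.inl rfl, hX⟩
    · refine ⟨lineG (Y / X) 0, Or.inr ⟨_, rfl⟩, ?_⟩
      rw [mem_lineG]
      simp only [zero_mul, add_zero]
      field_simp
  · rintro ⟨X, Y⟩ hp l (rfl | ⟨α, rfl⟩) m (rfl | ⟨α', rfl⟩) h1 h2
    · rfl
    · rw [mem_lineInf] at h1
      rw [mem_lineG] at h2
      simp only at h1 h2
      rw [h1] at h2
      simp at h2
      exact absurd (by rw [h1, h2]; rfl) hp
    · rw [mem_lineInf] at h2
      rw [mem_lineG] at h1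
      simp only at h1 h2
      rw [h2] at h1
      simp at h1
      exact absurd (by rw [h1, h2]; rfl) hp
    · rw [mem_lineG] at h1 h2
      simp only [zero_mul, add_zero] at h1 h2
      by_cases hX : X = 0
      · rw [hX, mul_zero] at h1
        exact absurd (by rw [h1, hX]; rfl) hp
      · have : α = α' := mul_right_cancel₀ hX (h1.symm.trans h2)
        rw [this]

lemma mem_lineG_uv {β u v X Y : QuadraticAlgebra K E 0} (hv : v ≠ 0) {m a : K} :
    (X, Y) ∈ lineG (u + m • v) (a • (v * β)) ↔ (Y - u * X) / v = m • X + a • (β * star X) := by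
  rw [mem_lineG, div_eq_iff hv, sub_eq_iff_eq_add]
  simp only [Algebra.smul_def]
  constructor
  · intro h; rw [h]; ring
  · intro h; rw [h]; ring

lemma Spr_isPart {β : QuadraticAlgebra K E 0} (hβ : ¬ IsSquare (QuadraticAlgebra.norm β))
    (u : QuadraticAlgebra K E 0) {v : QuadraticAlgebra K E 0} (hv : v ≠ 0) :
    IsPart (Spr β u v) := by
  refine ⟨?_, ?_, ?_⟩
  · rintro l (⟨m, a, _, rfl⟩ | ⟨x, hx, rfl⟩)
    · exact finrank_lineG _ _
    · exact finrank_lineB u hv hx
  · rintro ⟨X, Y⟩ hp
    by_cases hX : X = 0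
    · have hY : Y ≠ 0 := fun h => hp (by rw [hX, h]; rfl)
      refine ⟨lineB u v (Y / v), Or.inr ⟨_, div_ne_zero hY hv, rfl⟩, 0, 1, ?_, ?_⟩
      · simp [hX]
      · simp only [zero_smul, one_smul, zero_add]
        field_simp
    · obtain ⟨m, a, h⟩ := decomp_exists hβ hX ((Y - u * X) / v)
      by_cases ha : a = 0
      · refine ⟨lineB u v X, Or.inr ⟨X, hX, rfl⟩, 1, m, by simp, ?_⟩
        rw [ha, zero_smul, add_zero, div_eq_iff hv] at h
        simp only [one_smul]
        rw [Algebra.smul_def] at h ⊢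
        linear_combination h
      · exact ⟨_, Or.inl ⟨m, a, ha, rfl⟩, (mem_lineG_uv hv).mpr h⟩
  · rintro ⟨X, Y⟩ hp
    -- the symmetric case analysis
    have key : ∀ (m a : K) (x : QuadraticAlgebra K E 0), a ≠ 0 → x ≠ 0 →
        (X, Y) ∈ lineG (u + m • v) (a • (v * β)) → (X, Y) ∈ lineB u v x → False := by
      intro m a x ha hx h1 h2
      rw [mem_lineG_uv hv] at h1
      obtain ⟨c, d, h3, h4⟩ := h2
      simp only at h3 h4
      by_cases hX : X = 0
      · rw [hX] at h1
        simp only [mul_zero, sub_zero, smul_zero, star_zero, add_zero] at h1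
        have hY : Y = 0 := by
          rcases div_eq_zero_iff.mp h1 with h | h
          · exact h
          · exact absurd h hv
        exact hp (by rw [hX, hY]; rfl)
      · have hc : c ≠ 0 := by
          rintro rfl
          rw [zero_smul] at h3
          exact hX h3
        have h5 : (Y - u * X) / v = (d / c) • X + (0 : K) • (β * star X) := by
          rw [div_eq_iff hv, h4, h3, zero_smul, add_zero, smul_smul, div_mul_cancel₀ _ hc]
          simp only [Algebra.smul_def]; ring
        rw [h1] at h5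
        exact ha (decomp_uniq hβ hX h5).2
    rintro l (⟨m, a, ha, rfl⟩ | ⟨x, hx, rfl⟩) l' (⟨m', a', ha', rfl⟩ | ⟨x', hx', rfl⟩) h1 h2
    · rw [mem_lineG_uv hv] at h1 h2
      by_cases hX : X = 0
      · rw [hX] at h1
        simp only [mul_zero, sub_zero, smul_zero, star_zero, add_zero] at h1
        have hY : Y = 0 := by
          rcases div_eq_zero_iff.mp h1 with h | h
          · exact h
          · exact absurd h hv
        exact absurd (by rw [hX, hY]; rfl) hp
      · obtain ⟨h3, h4⟩ := decomp_uniq hβ hX (h1.symm.trans h2)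
        rw [h3, h4]
    · exact (key m a x' ha hx' h1 h2).elim
    · exact (key m' a' x ha' hx h2 h1).elim
    · obtain ⟨c, d, h3, h4⟩ := h1
      obtain ⟨c', d', h3', h4'⟩ := h2
      simp only at h3 h4 h3' h4'
      have hsm : ∃ k : K, k ≠ 0 ∧ x' = k • x := by
        by_cases hc : c = 0
        · have hX : X = 0 := by rw [h3, hc, zero_smul]
          have hc' : c' = 0 := by
            rw [hX] at h3'
            rcases smul_eq_zero.mp h3'.symm with h | h
            · exact h
            · exact absurd h hx'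
          rw [hc, zero_smul, zero_add] at h4
          rw [hc', zero_smul, zero_add] at h4'
          have hY : Y ≠ 0 := fun h => hp (by rw [hX, h]; rfl)
          have hd : d ≠ 0 := by
            rintro rfl
            rw [zero_smul] at h4
            exact hY h4
          have hd' : d' ≠ 0 := by
            rintro rfl
            rw [zero_smul] at h4'
            exact hY h4'
          refine ⟨d / d', div_ne_zero hd hd', ?_⟩
          have h5 : d • x = d' • x' := by
            have h6 : v * (d • x) = v * (d' • x') := by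
              rw [mul_smul_comm, mul_smul_comm, ← h4, ← h4']
            exact mul_left_cancel₀ hv h6
          rw [div_eq_inv_mul, mul_smul, h5, smul_smul, inv_mul_cancel₀ hd', one_smul]
        · have hX : X ≠ 0 := by
            rw [h3]
            exact smul_ne_zero hc hx
          have hc' : c' ≠ 0 := by
            rintro rfl
            rw [zero_smul] at h3'
            exact hX h3'
          refine ⟨c / c', div_ne_zero hc hc', ?_⟩
          rw [div_eq_inv_mul, mul_smul, ← h3, h3', smul_smul, inv_mul_cancel₀ hc', one_smul]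
      obtain ⟨k, hk, rfl⟩ := hsm
      ext p
      rw [mem_lineB, mem_lineB]
      constructor
      · rintro ⟨a, b, h5, h6⟩
        refine ⟨a / k, b / k, ?_, ?_⟩
        · rw [h5, smul_smul, div_mul_cancel₀ _ hk]
        · rw [h6, mul_smul_comm, mul_smul_comm, smul_smul, smul_smul, div_mul_cancel₀ _ hk,
            div_mul_cancel₀ _ hk]
      · rintro ⟨a, b, h5, h6⟩
        refine ⟨a * k, b * k, ?_, ?_⟩
        · rw [h5, smul_smul]
        · rw [h6, mul_smul_comm, mul_smul_comm, smul_smul, smul_smul]

/-- every line is in one of the spreads of the packing -/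
lemma covering [Fintype K] (h2 : (2 : K) ≠ 0) {β : QuadraticAlgebra K E 0} (hβ0 : β ≠ 0)
    {l : Submodule K (QuadraticAlgebra K E 0 × QuadraticAlgebra K E 0)} (hl : finrank K l = 2) :
    l ∈ (Sig : Set (Submodule K (QuadraticAlgebra K E 0 × QuadraticAlgebra K E 0))) ∨
      ∃ u v : QuadraticAlgebra K E 0, v ≠ 0 ∧ l ∈ Spr β u v := by
  by_cases hinf : ∃ z : QuadraticAlgebra K E 0, z ≠ 0 ∧ (0, z) ∈ l
  · obtain ⟨z, hz, hzl⟩ := hinf
    by_cases hall : ∀ p ∈ l, p.1 = 0
    · left; left
      apply Submodule.eq_of_le_of_finrank_eq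
      · intro p hp; exact hall p hp
      · rw [hl, finrank_lineInf]
    · push Not at hall
      obtain ⟨p, hp, hp1⟩ := hall
      right
      refine ⟨p.2 / p.1, z / p.1, div_ne_zero hz hp1, Or.inr ⟨p.1, hp1, ?_⟩⟩
      symm
      apply Submodule.eq_of_le_of_finrank_eq
      · rintro q ⟨a, b, h3, h4⟩
        have h5 : q = a • p + b • ((0 : QuadraticAlgebra K E 0), z) := by
          apply Prod.ext
          · rw [h3]; simp
          · rw [h4, div_mul_cancel₀ _ hp1, div_mul_cancel₀ _ hp1]; rfl
        rw [h5]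
        exact l.add_mem (l.smul_mem a hp) (l.smul_mem b hzl)
      · rw [hl, finrank_lineB _ (div_ne_zero hz hp1) hp1]
  · push Not at hinf
    -- the projection is bijective
    let T : l →ₗ[K] QuadraticAlgebra K E 0 :=
      (LinearMap.fst K (QuadraticAlgebra K E 0) (QuadraticAlgebra K E 0)).comp l.subtype
    have hinj : Function.Injective T := by
      rw [← LinearMap.ker_eq_bot, LinearMap.ker_eq_bot']
      rintro ⟨p, hp⟩ h
      have h1 : p.1 = 0 := h
      by_cases h3 : p.2 = 0
      · exact Subtype.ext (Prod.ext h1 h3)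
      · exfalso
        apply hinf p.2 h3
        rw [← h1]; exact hp
    have hsurj : Function.Surjective T := by
      rw [← LinearMap.injective_iff_surjective_of_finrank_eq_finrank]
      · exact hinj
      · rw [hl, QuadraticAlgebra.finrank_eq_two]
    obtain ⟨⟨p, hp⟩, hp1⟩ := hsurj 1
    obtain ⟨⟨q, hq⟩, hq1⟩ := hsurj ω
    have hp1' : p.1 = 1 := hp1
    have hq1' : q.1 = ω := hq1
    set α : QuadraticAlgebra K E 0 := (1 / 2 : K) • (p.2 + q.2 / ω) with hα
    set γ : QuadraticAlgebra K E 0 := (1 / 2 : K) • (p.2 - q.2 / ω) with hγ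
    have hω := omega_ne_zero (K := K) (E := E)
    have hsω : star (ω : QuadraticAlgebra K E 0) = -ω := by ext <;> simp
    have hs1 : star (1 : QuadraticAlgebra K E 0) = 1 := star_one _
    have e1 : p.2 = α + γ := by
      rw [hα, hγ, ← smul_add]
      have : p.2 + q.2 / ω + (p.2 - q.2 / ω) = (2 : K) • p.2 := by
        rw [two_smul]; ring
      rw [this, smul_smul, one_div_mul_cancel h2, one_smul]
    have e2 : q.2 = (α - γ) * ω := by
      rw [hα, hγ, ← smul_sub]
      have : p.2 + q.2 / ω - (p.2 - q.2 / ω) = (2 : K) • (q.2 / ω) := by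
        rw [two_smul]; ring
      rw [this, smul_smul, one_div_mul_cancel h2, one_smul, div_mul_cancel₀ _ hω]
    have hlG : l = lineG α γ := by
      apply Submodule.eq_of_le_of_finrank_eq
      · intro r hr
        have h3 : r = r.1.re • p + r.1.im • q := by
          have h4 : r - (r.1.re • p + r.1.im • q) ∈ l :=
            l.sub_mem hr (l.add_mem (l.smul_mem _ hp) (l.smul_mem _ hq))
          have h5 : (r - (r.1.re • p + r.1.im • q)).1 = 0 := by
            simp only [Prod.fst_sub, Prod.fst_add, Prod.smul_fst, hp1', hq1']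
            ext <;> simp
          have h6 : (r - (r.1.re • p + r.1.im • q)).2 = 0 := by
            by_contra h7
            apply hinf _ h7
            rw [← h5]; exact h4
          exact sub_eq_zero.mp (Prod.ext h5 h6)
        rw [mem_lineG, h3]
        simp only [Prod.fst_add, Prod.snd_add, Prod.smul_fst, Prod.smul_snd, hp1', hq1', e1, e2]
        ext <;> simp <;> ring
      · rw [hl, finrank_lineG]
    by_cases hγ0 : γ = 0
    · left; right
      exact ⟨α, by rw [hlG, hγ0]⟩
    · right
      refine ⟨α, γ / β, div_ne_zero hγ0 hβ0, Or.inl ⟨0, 1, one_ne_zero, ?_⟩⟩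
      rw [hlG, zero_smul, add_zero, one_smul, div_mul_cancel₀ _ hβ0]

lemma Sig_disjoint_Spr (h2 : (2 : K) ≠ 0) {β : QuadraticAlgebra K E 0} (hβ0 : β ≠ 0)
    (u : QuadraticAlgebra K E 0) {v : QuadraticAlgebra K E 0} (hv : v ≠ 0) :
    Disjoint (Sig : Set (Submodule K (QuadraticAlgebra K E 0 × QuadraticAlgebra K E 0)))
      (Spr β u v) := by
  rw [Set.disjoint_left]
  rintro l (rfl | ⟨α, rfl⟩) (⟨m, a, ha, h⟩ | ⟨x, hx, h⟩)
  · exact lineG_ne_lineInf _ _ h.symm
  · exact lineB_ne_lineInf _ _ hx h.symm
  · have := (lineG_inj h2 h).2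
    exact smul_ne_zero ha (mul_ne_zero hv hβ0) this.symm
  · exact lineG_ne_lineB _ _ _ hv hx h

lemma Spr_congr {β u v : QuadraticAlgebra K E 0} (k : K) {k' : K} (hk' : k' ≠ 0) :
    Spr β (u + k • v) (k' • v) = Spr β u v := by
  have sub1 : ∀ (u v : QuadraticAlgebra K E 0) (k k' : K), k' ≠ 0 →
      Spr β (u + k • v) (k' • v) ⊆ Spr β u v := by
    intro u v k k' hk' l hl
    rcases hl with ⟨m, a, ha, rfl⟩ | ⟨x, hx, rfl⟩
    · left
      refine ⟨k + m * k', a * k', mul_ne_zero ha hk', ?_⟩
      congr 1
      · rw [add_assoc, smul_smul, ← add_smul]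
      · rw [smul_mul_assoc, smul_smul]
    · right
      refine ⟨x, hx, ?_⟩
      ext p
      rw [mem_lineB, mem_lineB]
      constructor
      · rintro ⟨a, b, h5, h6⟩
        refine ⟨a, a * k + b * k', h5, ?_⟩
        rw [h6]
        simp only [Algebra.smul_def, map_add, map_mul]; ring
      · rintro ⟨a, b, h5, h6⟩
        refine ⟨a, (b - a * k) / k', h5, ?_⟩
        rw [h6]
        have : (b : K) = a * k + (b - a * k) / k' * k' := by field_simp; ring
        have h7 : b • (v * x) = (a * k + (b - a * k) / k' * k') • (v * x) := by rw [← this]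
        rw [h7]
        simp only [Algebra.smul_def, map_add, map_mul]; ring
  apply Set.Subset.antisymm (sub1 u v k k' hk')
  have := sub1 (u + k • v) (k' • v) (-(k * k'⁻¹)) k'⁻¹ (inv_ne_zero hk')
  rw [smul_smul, smul_smul, inv_mul_cancel₀ hk', one_smul, neg_mul, mul_assoc,
    inv_mul_cancel₀ hk', mul_one, neg_smul, add_neg_cancel_right] at this
  exact this

lemma Spr_inter (h2 : (2 : K) ≠ 0) {β : QuadraticAlgebra K E 0} (hβ0 : β ≠ 0)
    {u u' v v' : QuadraticAlgebra K E 0} (hv : v ≠ 0) (hv' : v' ≠ 0)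
    {l : Submodule K (QuadraticAlgebra K E 0 × QuadraticAlgebra K E 0)}
    (h : l ∈ Spr β u v) (h' : l ∈ Spr β u' v') : ∃ k k' : K, k' ≠ 0 ∧ u' = u + k • v ∧
      v' = k' • v := by
  rcases h with ⟨m, a, ha, rfl⟩ | ⟨x, hx, rfl⟩
  · rcases h' with ⟨m', a', ha', h⟩ | ⟨x', hx', h⟩
    · obtain ⟨e1, e2⟩ := lineG_inj h2 h
      have e3 : a • v = a' • v' := by
        apply mul_right_cancel₀ hβ0
        rw [smul_mul_assoc, smul_mul_assoc, e2]
      have e4 : v' = (a / a') • v := by
        rw [div_eq_inv_mul, mul_smul, e3, smul_smul, inv_mul_cancel₀ ha', one_smul]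
      refine ⟨m - m' * (a / a'), a / a', div_ne_zero ha ha', ?_, e4⟩
      rw [sub_smul, mul_smul, ← e4]
      linear_combination (exp := 1) -e1
    · exact absurd h (lineG_ne_lineB _ _ _ hv' hx')
  · rcases h' with ⟨m', a', ha', h⟩ | ⟨x', hx', h⟩
    · exact absurd h.symm (lineG_ne_lineB _ _ _ hv hx)
    · -- compare the two lines
      have h3 : (x, u * x) ∈ lineB u' v' x' := by
        rw [← h]; exact ⟨1, 0, by simp, by simp⟩
      have h4 : ((0 : QuadraticAlgebra K E 0), v * x) ∈ lineB u' v' x' := by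
        rw [← h]; exact ⟨0, 1, by simp, by simp⟩
      obtain ⟨a, b, e1, e2⟩ := h3
      obtain ⟨c, d, e3, e4⟩ := h4
      simp only at e1 e2 e3 e4
      have hc : c = 0 := by
        rcases smul_eq_zero.mp e3.symm with h | h
        · exact h
        · exact absurd h hx'
      have ha : a ≠ 0 := by
        rintro rfl
        rw [zero_smul] at e1
        exact hx e1
      rw [hc, zero_smul, zero_add] at e4
      have hd : d ≠ 0 := by
        rintro rfl
        rw [zero_smul] at e4
        exact mul_ne_zero hv hx e4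
      -- v * a x' = d v' x'
      have e5 : a • v = d • v' := by
        apply mul_right_cancel₀ hx'
        rw [smul_mul_assoc, smul_mul_assoc, ← e4, e1, mul_smul_comm]
      have e6 : v' = (a / d) • v := by
        rw [div_eq_inv_mul, mul_smul, e5, smul_smul, inv_mul_cancel₀ hd, one_smul]
      have e7 : a • u = a • u' + b • v' := by
        apply mul_right_cancel₀ hx'
        rw [add_mul, smul_mul_assoc, smul_mul_assoc, smul_mul_assoc, ← e2, e1, mul_smul_comm]
      refine ⟨-(b / d), a / d, div_ne_zero ha hd, ?_, e6⟩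
      have e8 : a • u' = a • u - b • v' := by rw [e7]; ring
      have e9 : u' = a⁻¹ • (a • u - b • v') := by
        rw [← e8, smul_smul, inv_mul_cancel₀ ha, one_smul]
      rw [e9, e6, smul_sub, smul_smul, inv_mul_cancel₀ ha, one_smul, smul_smul, smul_smul, neg_smul,
        ← sub_eq_add_neg]
      congr 2
      field_simp

end

end Pool.Agent.Lib.MP_9569f1_co
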